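import Pool.Agent.Y89.KS.Defs2

/-!
# Galois conjugates of the block of the Hodge operator
-/

open Matrix Finset

set_option linter.unusedSectionVars false

namespace Pool.Agent.Y175.KS

noncomputable section

open Pool.Agent.W544.PG (HS mC)
open Pool.Agent.Y89.KS

section alg
variable {n : ℕ} {Q R : Matrix (Fin n) (Fin n) ℂ}

theorem adj_mul (hQR : Q * R = 1) (P P' : Matrix (Fin n) (Fin n) ℂ) :
    adj Q R (P * P') = adj Q R P' * adj Q R P := by
  unfold adj
  rw [transpose_mul]
  calc R * (P'ᵀ * Pᵀ) * Q = R * P'ᵀ * (Q * R) * Pᵀ * Q := by rw [hQR]; simp [Matrix.mul_assoc]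
    _ = R * P'ᵀ * Q * (R * Pᵀ * Q) := by simp only [Matrix.mul_assoc]

theorem adj_sub (P P' : Matrix (Fin n) (Fin n) ℂ) :
    adj Q R (P - P') = adj Q R P - adj Q R P' := by
  unfold adj
  rw [transpose_sub, Matrix.mul_sub, Matrix.sub_mul]

theorem adj_add (P P' : Matrix (Fin n) (Fin n) ℂ) :
    adj Q R (P + P') = adj Q R P + adj Q R P' := by
  unfold adj
  rw [transpose_add, Matrix.mul_add, Matrix.add_mul]

theorem adj_smul (c : ℂ) (P : Matrix (Fin n) (Fin n) ℂ) :
    adj Q R (c • P) = c • adj Q R P := by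
  unfold adj
  rw [transpose_smul, Matrix.mul_smul, Matrix.smul_mul]

theorem adj_zero : adj Q R (0 : Matrix (Fin n) (Fin n) ℂ) = 0 := by
  unfold adj
  simp

theorem adj_adj (hRQ : R * Q = 1) (hQ : Qᵀ = Q) (hR : Rᵀ = R)
    (P : Matrix (Fin n) (Fin n) ℂ) : adj Q R (adj Q R P) = P := by
  unfold adj
  rw [transpose_mul, transpose_mul, transpose_transpose, hQ, hR]
  calc R * (Q * (P * R)) * Q = (R * Q) * P * (R * Q) := by simp only [Matrix.mul_assoc]
    _ = P := by rw [hRQ, Matrix.one_mul, Matrix.mul_one]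

/-- entries of the operators `a ∧ b` -/
theorem wdg_entry (hQR : Q * R = 1) (P : Matrix (Fin n) (Fin n) ℂ) (u t i j : Fin n) :
    wdg Q (P *ᵥ Pi.single u 1) (adj Q R P *ᵥ (R *ᵥ Pi.single t 1)) i j =
      P i u * P t j - (R * Pᵀ) i t * (Q * P) j u := by
  have h1 : adj Q R P *ᵥ (R *ᵥ Pi.single t 1) = fun i => (R * Pᵀ) i t := by
    unfold adj
    rw [mulVec_mulVec]
    have : R * Pᵀ * Q * R = R * Pᵀ := by rw [Matrix.mul_assoc, hQR, Matrix.mul_one]
    rw [this]
    funext i
    simp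
  have h2 : P *ᵥ Pi.single u 1 = fun i => P i u := by
    funext i
    simp
  have h3 : (Q *ᵥ fun i => (R * Pᵀ) i t) = fun j => P t j := by
    have : (fun i => (R * Pᵀ) i t) = (R * Pᵀ) *ᵥ Pi.single t 1 := by
      funext i
      simp
    rw [this, mulVec_mulVec, ← Matrix.mul_assoc, hQR, Matrix.one_mul]
    funext j
    simp
  have h4 : (Q *ᵥ fun i => P i u) = fun j => (Q * P) j u := by
    funext j
    rfl
  rw [h1, h2]
  unfold wdg
  rw [h3, h4]
  simp [Matrix.sub_apply, Matrix.vecMulVec_apply]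

/-- the contraction of the commutation relations -/
theorem contr (hQR : Q * R = 1) {P P' : Matrix (Fin n) (Fin n) ℂ}
    (h : ∀ a b, wdg Q (P *ᵥ a) (adj Q R P *ᵥ b) * P' = P' * wdg Q (P *ᵥ a) (adj Q R P *ᵥ b)) :
    P.trace • (P' * P) - P' * adj Q R P * P = (P * P').trace • P - adj Q R (P' * P) * P := by
  ext i u
  have key : ∀ t, ∑ j, (P i u * P t j - (R * Pᵀ) i t * (Q * P) j u) * P' j t =
      ∑ j, P' i j * (P j u * P t t - (R * Pᵀ) j t * (Q * P) t u) := by
    intro t
    have h1 := congrFun (congrFun (h (Pi.single u 1) (R *ᵥ Pi.single t 1)) i) t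
    rw [Matrix.mul_apply, Matrix.mul_apply] at h1
    simp only [wdg_entry hQR] at h1
    exact h1
  have h2 := Finset.sum_congr rfl fun t (_ : t ∈ (univ : Finset (Fin n))) => key t
  have e1 : ∑ t, ∑ j, (P i u * P t j - (R * Pᵀ) i t * (Q * P) j u) * P' j t =
      (P * P').trace * P i u - (R * Pᵀ * P'ᵀ * (Q * P)) i u := by
    have a1 : (P * P').trace * P i u = ∑ t, ∑ j, P i u * P t j * P' j t := by
      rw [Matrix.trace, Finset.sum_mul]
      refine Finset.sum_congr rfl fun t _ => ?_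
      rw [Matrix.diag_apply, Matrix.mul_apply, Finset.sum_mul]
      exact Finset.sum_congr rfl fun j _ => by ring
    have a2 : (R * Pᵀ * P'ᵀ * (Q * P)) i u =
        ∑ t, ∑ j, (R * Pᵀ) i t * (Q * P) j u * P' j t := by
      rw [Matrix.mul_apply, Finset.sum_comm]
      refine Finset.sum_congr rfl fun j _ => ?_
      rw [Matrix.mul_apply, Finset.sum_mul]
      exact Finset.sum_congr rfl fun t _ => by rw [Matrix.transpose_apply]; ring
    rw [a1, a2, ← Finset.sum_sub_distrib]
    refine Finset.sum_congr rfl fun t _ => ?_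
    rw [← Finset.sum_sub_distrib]
    exact Finset.sum_congr rfl fun j _ => by ring
  have e2 : ∑ t, ∑ j, P' i j * (P j u * P t t - (R * Pᵀ) j t * (Q * P) t u) =
      P.trace * (P' * P) i u - (P' * (R * Pᵀ) * (Q * P)) i u := by
    have a1 : P.trace * (P' * P) i u = ∑ t, ∑ j, P' i j * (P j u * P t t) := by
      rw [Matrix.trace, Finset.sum_mul]
      refine Finset.sum_congr rfl fun t _ => ?_
      rw [Matrix.diag_apply, Matrix.mul_apply, Finset.mul_sum]
      exact Finset.sum_congr rfl fun j _ => by ring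
    have a2 : (P' * (R * Pᵀ) * (Q * P)) i u =
        ∑ t, ∑ j, P' i j * ((R * Pᵀ) j t * (Q * P) t u) := by
      rw [Matrix.mul_apply]
      refine Finset.sum_congr rfl fun t _ => ?_
      rw [Matrix.mul_apply, Finset.sum_mul]
      exact Finset.sum_congr rfl fun j _ => by ring
    rw [a1, a2, ← Finset.sum_sub_distrib]
    refine Finset.sum_congr rfl fun t _ => ?_
    rw [← Finset.sum_sub_distrib]
    exact Finset.sum_congr rfl fun j _ => by ring
  rw [e1, e2] at h2
  have f1 : P' * adj Q R P * P = P' * (R * Pᵀ) * (Q * P) := by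
    unfold adj
    simp only [Matrix.mul_assoc]
  have f2 : adj Q R (P' * P) * P = R * Pᵀ * P'ᵀ * (Q * P) := by
    unfold adj
    rw [transpose_mul]
    simp only [Matrix.mul_assoc]
  rw [f1, f2, Matrix.sub_apply, Matrix.sub_apply, Matrix.smul_apply, Matrix.smul_apply,
    smul_eq_mul, smul_eq_mul]
  exact h2.symm

/-- the difference of the projection and its adjoint -/
theorem diff (hQR : Q * R = 1) (hQ : Qᵀ = Q) {P P' : Matrix (Fin n) (Fin n) ℂ} (hP : P * P = P)
    (h : ∀ a b, wdg Q (P *ᵥ a) (adj Q R P *ᵥ b) * P' = P' * wdg Q (P *ᵥ a) (adj Q R P *ᵥ b)) :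
    (P - adj Q R P) * P' = P' * (P - adj Q R P) := by
  have hD : P - adj Q R P =
      ∑ t, wdg Q (P *ᵥ Pi.single t 1) (adj Q R P *ᵥ (R *ᵥ Pi.single t 1)) := by
    ext i j
    rw [Matrix.sum_apply]
    simp only [wdg_entry hQR]
    rw [Finset.sum_sub_distrib, Matrix.sub_apply]
    congr 1
    · nth_rewrite 1 [← hP]
      rw [Matrix.mul_apply]
    · have : adj Q R P = R * Pᵀ * (Q * P)ᵀ := by
        unfold adj
        rw [transpose_mul, hQ]
        nth_rewrite 1 [← hP]
        rw [transpose_mul]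
        simp only [Matrix.mul_assoc]
      rw [this, Matrix.mul_apply]
      rfl
  rw [hD, Finset.sum_mul, Finset.mul_sum]
  exact Finset.sum_congr rfl fun t _ => h _ _

/-- the trace of an idempotent matrix is its rank -/
theorem trace_idem {P : Matrix (Fin n) (Fin n) ℂ} (hP : P * P = P) : P.trace = (P.rank : ℂ) := by
  have h1 : IsIdempotentElem (Matrix.toLin' P) := by
    unfold IsIdempotentElem
    rw [Module.End.mul_eq_comp, ← Matrix.toLin'_mul, hP]
  have h2 := (LinearMap.IsIdempotentElem.isProj_range _ h1).trace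
  rw [Matrix.trace_toLin'_eq] at h2
  rw [h2, Matrix.rank]
  rfl

theorem idem_ne {P : Matrix (Fin n) (Fin n) ℂ} (hP : P * P = P) (h0 : P.trace = 0) : P = 0 := by
  have h1 : IsIdempotentElem (Matrix.toLin' P) := by
    unfold IsIdempotentElem
    rw [Module.End.mul_eq_comp, ← Matrix.toLin'_mul, hP]
  have h2 : LinearMap.trace ℂ _ (Matrix.toLin' P) = 0 := by
    rw [Matrix.trace_toLin'_eq, h0]
  have h3 := LinearMap.IsIdempotentElem.eq_zero_of_trace_eq_zero h1 h2
  exact (LinearEquiv.map_eq_zero_iff Matrix.toLin').1 h3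

/-- `P` is of one of the two types -/
def Ty (Q R P : Matrix (Fin n) (Fin n) ℂ) : Prop :=
  (adj Q R P = P ∧ 3 ≤ P.rank) ∨ (adj Q R P * P = 0 ∧ P * adj Q R P = 0)

/-- the key lemma -/
theorem key (hQR : Q * R = 1) (hRQ : R * Q = 1) (hQ : Qᵀ = Q) (hR : Rᵀ = R)
    {P P' : Matrix (Fin n) (Fin n) ℂ} (hP : P * P = P) (hP0 : P ≠ 0) (hty : Ty Q R P)
    (hP' : P' * P' = P')
    (h : ∀ a b, wdg Q (P *ᵥ a) (adj Q R P *ᵥ b) * P' = P' * wdg Q (P *ᵥ a) (adj Q R P *ᵥ b))
    (h' : ∀ a b, wdg Q (P *ᵥ a) (adj Q R P *ᵥ b) * adj Q R P' =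
      adj Q R P' * wdg Q (P *ᵥ a) (adj Q R P *ᵥ b)) :
    P' * P = 0 ∨ P' * P = P := by
  have hm : P.trace ≠ 0 := fun h0 => hP0 (idem_ne hP h0)
  have main := contr hQR h
  have hfin : P * (P' * P) = P' * P → (∃ c : ℂ, P' * P = c • P) → P' * P = 0 ∨ P' * P = P := by
    rintro h1 ⟨c, hc⟩
    have h2 : (P' * P) * (P' * P) = P' * P := by
      rw [Matrix.mul_assoc, h1, ← Matrix.mul_assoc, hP']
    rw [hc, Matrix.smul_mul, Matrix.mul_smul, hP, smul_smul] at h2
    have h3 : (c * c - c) • P = 0 := by rw [sub_smul, h2, sub_self]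
    rcases smul_eq_zero.1 h3 with h4 | h4
    · have h5 : c * (c - 1) = 0 := by linear_combination h4
      rcases mul_eq_zero.1 h5 with h6 | h6
      · left; rw [hc, h6, zero_smul]
      · right; rw [hc, sub_eq_zero.1 h6, one_smul]
    · exact absurd h4 hP0
  rcases hty with ⟨hself, hrank⟩ | ⟨hz1, hz2⟩
  · -- the self-adjoint case
    have hmr := trace_idem hP
    set m : ℂ := P.trace with hmdef
    have hr1 : m - 1 ≠ 0 := by
      rw [hmr]
      intro h0
      have h1 : ((P.rank : ℕ) : ℂ) = ((1 : ℕ) : ℂ) := by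
        push_cast
        linear_combination h0
      have := Nat.cast_injective h1
      omega
    have hr2 : m - 2 ≠ 0 := by
      rw [hmr]
      intro h0
      have h1 : ((P.rank : ℕ) : ℂ) = ((2 : ℕ) : ℂ) := by
        push_cast
        linear_combination h0
      have := Nat.cast_injective h1
      omega
    set N := P' * P with hN
    set τ := (P * P').trace with hτ
    have e1 : P' * adj Q R P * P = N := by rw [hself, Matrix.mul_assoc, hP]
    have e2 : adj Q R N = P * adj Q R P' := by rw [hN, adj_mul hQR, hself]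
    have e3 : (m - 1) • N = τ • P - adj Q R N * P := by
      rw [sub_smul, one_smul, ← main, e1]
    have e4 : P * ((m - 1) • N) = (m - 1) • N := by
      rw [e3, Matrix.mul_sub, Matrix.mul_smul, hP, e2]
      congr 1
      rw [← Matrix.mul_assoc, ← Matrix.mul_assoc, hP]
    have e5 : P * N = N := by
      rw [Matrix.mul_smul] at e4
      exact smul_right_injective _ hr1 e4
    have e6 : adj Q R N * P = adj Q R N := by
      have := congrArg (adj Q R) e5
      rwa [adj_mul hQR, hself] at this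
    rw [e6] at e3
    have e7 : (m - 1) • adj Q R N = τ • P - N := by
      have := congrArg (adj Q R) e3
      rwa [adj_smul, adj_sub, adj_smul, hself, adj_adj hRQ hQ hR] at this
    have e8 : (m - 2) • (N - adj Q R N) = 0 := by
      have h1 : (m - 2) • (N - adj Q R N) =
          ((m - 1) • N + adj Q R N) - ((m - 1) • adj Q R N + N) := by
        module
      rw [h1, e3, e7]
      abel
    have e9 : N = adj Q R N := by
      rcases smul_eq_zero.1 e8 with h1 | h1
      · exact absurd h1 hr2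
      · exact sub_eq_zero.1 h1
    refine hfin e5 ⟨τ / m, ?_⟩
    have e10 : m • N = τ • P := by
      have h1 : m • N = (m - 1) • N + N := by module
      rw [h1, e3, ← e9]
      abel
    rw [div_eq_inv_mul, mul_smul, ← e10, smul_smul, inv_mul_cancel₀ hm, one_smul]
  · -- the other case
    have aux : ∀ P1 : Matrix (Fin n) (Fin n) ℂ,
        (∀ a b, wdg Q (P *ᵥ a) (adj Q R P *ᵥ b) * P1 = P1 * wdg Q (P *ᵥ a) (adj Q R P *ᵥ b)) →
        adj Q R P * (P1 * P) = 0 ∧ P * (P1 * P) = P1 * P := by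
      intro P1 h1
      have h2 := diff hQR hQ hP h1
      have h3 : (P - adj Q R P) * (P1 * P) = P1 * P := by
        rw [← Matrix.mul_assoc, h2, Matrix.mul_assoc, Matrix.sub_mul, hP, hz1, sub_zero]
      have hA : adj Q R P * adj Q R P = adj Q R P := by
        rw [← adj_mul hQR, hP]
      have h4 : adj Q R P * (P1 * P) = 0 := by
        have h5 : adj Q R P * ((P - adj Q R P) * (P1 * P)) = adj Q R P * (P1 * P) := by rw [h3]
        rw [← Matrix.mul_assoc, Matrix.mul_sub, hz1, hA, zero_sub, Matrix.neg_mul] at h5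
        have h6 : (2 : ℂ) • (adj Q R P * (P1 * P)) = 0 := by
          rw [two_smul]
          nth_rewrite 1 [← h5]
          exact neg_add_cancel _
        rcases smul_eq_zero.1 h6 with h7 | h7
        · norm_num at h7
        · exact h7
      refine ⟨h4, ?_⟩
      rw [Matrix.sub_mul, h4, sub_zero] at h3
      exact h3
    obtain ⟨-, hPN⟩ := aux P' h
    obtain ⟨hz3, -⟩ := aux _ h'
    have e1 : adj Q R (P' * P) * P = 0 := by
      rw [adj_mul hQR, Matrix.mul_assoc, hz3]
    have e2 : P' * adj Q R P * P = 0 := by rw [Matrix.mul_assoc, hz1, Matrix.mul_zero]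
    rw [e1, e2, sub_zero, sub_zero] at main
    refine hfin hPN ⟨(P * P').trace / P.trace, ?_⟩
    rw [div_eq_inv_mul, mul_smul, ← main, smul_smul, inv_mul_cancel₀ hm, one_smul]

end alg

section blk
variable {n : ℕ}

theorem mul_map (σ : ℂ ≃+* ℂ) (M N : Matrix (Fin n) (Fin n) ℂ) :
    (M * N).map σ = M.map σ * N.map σ := by
  ext i j
  simp [Matrix.mul_apply, map_sum]

theorem sub_map (σ : ℂ ≃+* ℂ) (M N : Matrix (Fin n) (Fin n) ℂ) :
    (M - N).map σ = M.map σ - N.map σ := by
  ext i j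
  simp

theorem add_map (σ : ℂ ≃+* ℂ) (M N : Matrix (Fin n) (Fin n) ℂ) :
    (M + N).map σ = M.map σ + N.map σ := by
  ext i j
  simp

theorem smul_map (σ : ℂ ≃+* ℂ) (c : ℂ) (M : Matrix (Fin n) (Fin n) ℂ) :
    (c • M).map σ = σ c • M.map σ := by
  ext i j
  simp

theorem mC_map (σ : ℂ ≃+* ℂ) (A : Matrix (Fin n) (Fin n) ℚ) : (mC A).map σ = mC A := by
  ext i j
  simp [mC]

theorem detQ (V : HS n) : (mC V.Q).det ≠ 0 := by
  intro h0
  have h1 : (mC V.Q * ((2 : ℂ) • (V.x * V.x) - 1)).det = 0 := by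
    rw [det_mul, h0, zero_mul]
  obtain ⟨v, hv, hv0⟩ := Matrix.exists_mulVec_eq_zero_iff.2 h1
  have := V.pos v hv
  rw [hv0] at this
  simp at this

theorem QR (V : HS n) : mC V.Q * (mC V.Q)⁻¹ = 1 :=
  Matrix.mul_nonsing_inv _ (isUnit_iff_ne_zero.2 (detQ V))

theorem RQ (V : HS n) : (mC V.Q)⁻¹ * mC V.Q = 1 :=
  Matrix.nonsing_inv_mul _ (isUnit_iff_ne_zero.2 (detQ V))

theorem Qt (V : HS n) : (mC V.Q)ᵀ = mC V.Q := by
  have h := V.symm
  ext i j
  have := congrFun (congrFun h i) j
  simp only [mC, transpose_apply, map_apply] at this ⊢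
  rw [this]

theorem Rt (V : HS n) : ((mC V.Q)⁻¹)ᵀ = (mC V.Q)⁻¹ := by
  rw [Matrix.transpose_nonsing_inv, Qt]

theorem R_map (V : HS n) (σ : ℂ ≃+* ℂ) : ((mC V.Q)⁻¹).map σ = (mC V.Q)⁻¹ := by
  have h : ((mC V.Q)⁻¹).map σ * mC V.Q = 1 := by
    have h1 := congrArg (fun M : Matrix (Fin n) (Fin n) ℂ => M.map σ) (RQ V)
    simp only [mul_map, mC_map] at h1
    rw [h1, Matrix.map_one _ (map_zero σ) (map_one σ)]
  exact (Matrix.inv_eq_left_inv h).symm

theorem adV_map (V : HS n) (σ : ℂ ≃+* ℂ) (P : Matrix (Fin n) (Fin n) ℂ) :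
    adV V (P.map σ) = (adV V P).map σ := by
  unfold adV adj
  rw [mul_map, mul_map, mC_map, R_map]
  rfl

theorem map_comp (σ τ : ℂ ≃+* ℂ) (M : Matrix (Fin n) (Fin n) ℂ) :
    (M.map τ).map σ = M.map (τ.trans σ) := by
  ext i j
  simp

theorem g0_map (V : HS n) (σ : ℂ ≃+* ℂ) {z : Matrix (Fin n) (Fin n) ℂ} (hz : z ∈ g0 V) :
    z.map σ ∈ g0 V := by
  intro L hL hx
  let L' : Submodule ℂ (Matrix (Fin n) (Fin n) ℂ) :=
    { carrier := {z | z.map σ ∈ L}
      zero_mem' := by
        change (0 : Matrix (Fin n) (Fin n) ℂ).map σ ∈ L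
        rw [Matrix.map_zero _ (map_zero σ)]
        exact L.zero_mem
      add_mem' := by
        intro a b ha hb
        change (a + b).map σ ∈ L
        rw [add_map]
        exact L.add_mem ha hb
      smul_mem' := by
        intro c a ha
        change (c • a).map σ ∈ L
        rw [smul_map]
        exact L.smul_mem _ ha }
  refine hz L' ?_ ?_
  · intro a ha b hb
    change (a * b - b * a).map σ ∈ L
    rw [sub_map, mul_map, mul_map]
    exact hL _ ha _ hb
  · intro τ
    change (V.x.map τ).map σ ∈ L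
    rw [map_comp]
    exact hx _

theorem g0_neg (V : HS n) {z : Matrix (Fin n) (Fin n) ℂ} (hz : z ∈ g0 V) : -z ∈ g0 V :=
  fun L hL hx => L.neg_mem (hz L hL hx)

theorem x_mem (V : HS n) (σ : ℂ ≃+* ℂ) : V.x.map σ ∈ g0 V := fun _ _ h => h σ

theorem x_skew (V : HS n) (σ : ℂ ≃+* ℂ) :
    (V.x.map σ)ᵀ * mC V.Q + mC V.Q * V.x.map σ = 0 := by
  have h := congrArg (fun M : Matrix (Fin n) (Fin n) ℂ => M.map σ) V.skew
  simp only [add_map, mul_map, mC_map] at h
  rw [Matrix.map_zero _ (map_zero σ)] at h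
  exact h

theorem g0_skew (V : HS n) {z : Matrix (Fin n) (Fin n) ℂ} (hz : z ∈ g0 V) :
    zᵀ * mC V.Q + mC V.Q * z = 0 := by
  let L : Submodule ℂ (Matrix (Fin n) (Fin n) ℂ) :=
    { carrier := {z | zᵀ * mC V.Q + mC V.Q * z = 0}
      zero_mem' := by
        change (0 : Matrix (Fin n) (Fin n) ℂ)ᵀ * mC V.Q + mC V.Q * 0 = 0
        simp
      add_mem' := by
        intro a b ha hb
        change (a + b)ᵀ * mC V.Q + mC V.Q * (a + b) = 0
        change aᵀ * mC V.Q + mC V.Q * a = 0 at ha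
        change bᵀ * mC V.Q + mC V.Q * b = 0 at hb
        rw [transpose_add, Matrix.add_mul, Matrix.mul_add]
        calc aᵀ * mC V.Q + bᵀ * mC V.Q + (mC V.Q * a + mC V.Q * b) =
            (aᵀ * mC V.Q + mC V.Q * a) + (bᵀ * mC V.Q + mC V.Q * b) := by abel
          _ = 0 := by rw [ha, hb, add_zero]
      smul_mem' := by
        intro c a ha
        change (c • a)ᵀ * mC V.Q + mC V.Q * (c • a) = 0
        change aᵀ * mC V.Q + mC V.Q * a = 0 at ha
        rw [transpose_smul, Matrix.smul_mul, Matrix.mul_smul, ← smul_add, ha, smul_zero] }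
  refine hz L ?_ (x_skew V)
  intro a ha b hb
  change aᵀ * mC V.Q + mC V.Q * a = 0 at ha
  change bᵀ * mC V.Q + mC V.Q * b = 0 at hb
  change (a * b - b * a)ᵀ * mC V.Q + mC V.Q * (a * b - b * a) = 0
  have ha' : aᵀ * mC V.Q = -(mC V.Q * a) := eq_neg_of_add_eq_zero_left ha
  have hb' : bᵀ * mC V.Q = -(mC V.Q * b) := eq_neg_of_add_eq_zero_left hb
  rw [transpose_sub, transpose_mul, transpose_mul, Matrix.sub_mul, Matrix.mul_sub,
    Matrix.mul_assoc, Matrix.mul_assoc, ha', hb', Matrix.mul_neg, Matrix.mul_neg,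
    ← Matrix.mul_assoc, ← Matrix.mul_assoc, ha', hb', Matrix.neg_mul, Matrix.neg_mul,
    Matrix.mul_assoc, Matrix.mul_assoc]
  abel

/-- idempotents commuting with `g0 V` whose wedge operators lie in `g0 V` -/
structure Gd (V : HS n) (P : Matrix (Fin n) (Fin n) ℂ) : Prop where
  idem : P * P = P
  comm : ∀ z ∈ g0 V, z * P = P * z
  wedge : ∀ a b, wdg (mC V.Q) (P *ᵥ a) (adV V P *ᵥ b) ∈ g0 V
  ty : Ty (mC V.Q) (mC V.Q)⁻¹ P
  ne : P ≠ 0

theorem adV_adV (V : HS n) (P : Matrix (Fin n) (Fin n) ℂ) : adV V (adV V P) = P :=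
  adj_adj (RQ V) (Qt V) (Rt V) P

theorem adV_mul (V : HS n) (P P' : Matrix (Fin n) (Fin n) ℂ) :
    adV V (P * P') = adV V P' * adV V P := adj_mul (QR V) P P'

theorem adV_g0 (V : HS n) {z : Matrix (Fin n) (Fin n) ℂ} (hz : z ∈ g0 V) : adV V z = -z := by
  have h := eq_neg_of_add_eq_zero_left (g0_skew V hz)
  unfold adV adj
  rw [Matrix.mul_assoc, h, Matrix.mul_neg, ← Matrix.mul_assoc, RQ, Matrix.one_mul]

theorem wdg_swap (Q : Matrix (Fin n) (Fin n) ℂ) (a b : Fin n → ℂ) : wdg Q a b = -wdg Q b a := by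
  unfold wdg
  abel

theorem Gd.ad {V : HS n} {P : Matrix (Fin n) (Fin n) ℂ} (h : Gd V P) : Gd V (adV V P) where
  idem := by rw [← adV_mul, h.idem]
  comm := by
    intro z hz
    have h1 := congrArg (adV V) (h.comm z hz)
    rw [adV_mul, adV_mul, adV_g0 V hz, Matrix.mul_neg, Matrix.neg_mul, neg_inj] at h1
    exact h1.symm
  wedge := by
    intro a b
    rw [adV_adV, wdg_swap]
    exact g0_neg V (h.wedge b a)
  ty := by
    rcases h.ty with ⟨h1, h2⟩ | ⟨h1, h2⟩
    · left
      have h3 : adV V P = P := h1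
      rw [h3]
      exact ⟨h1, h2⟩
    · right
      have h3 := adV_adV V P
      exact ⟨by rw [show adj (mC V.Q) (mC V.Q)⁻¹ (adV V P) = P from h3]; exact h2,
        by rw [show adj (mC V.Q) (mC V.Q)⁻¹ (adV V P) = P from h3]; exact h1⟩
  ne := by
    intro h0
    apply h.ne
    rw [← adV_adV V P, h0]
    exact adj_zero

theorem mulVec_map (σ : ℂ ≃+* ℂ) (M : Matrix (Fin n) (Fin n) ℂ) (a : Fin n → ℂ) :
    M.map σ *ᵥ a = fun i => σ ((M *ᵥ fun i => σ.symm (a i)) i) := by
  funext i
  simp [mulVec, dotProduct, map_sum]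

theorem wdg_map (V : HS n) (σ : ℂ ≃+* ℂ) (a b : Fin n → ℂ) :
    wdg (mC V.Q) (fun i => σ (a i)) (fun i => σ (b i)) = (wdg (mC V.Q) a b).map σ := by
  have h1 : ∀ c : Fin n → ℂ, (mC V.Q *ᵥ fun i => σ (c i)) = fun i => σ ((mC V.Q *ᵥ c) i) := by
    intro c
    have := mulVec_map σ (mC V.Q) fun i => σ (c i)
    rw [mC_map] at this
    rw [this]
    simp
  unfold wdg
  rw [h1, h1, sub_map]
  congr 1 <;> · ext i j; simp [vecMulVec_apply]

theorem Gd.map {V : HS n} {P : Matrix (Fin n) (Fin n) ℂ} (h : Gd V P) (σ : ℂ ≃+* ℂ) :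
    Gd V (P.map σ) where
  idem := by rw [← mul_map, h.idem]
  comm := by
    intro z hz
    have h1 := h.comm _ (g0_map V σ.symm hz)
    have h2 := congrArg (fun M : Matrix (Fin n) (Fin n) ℂ => M.map σ) h1
    simp only [mul_map, map_comp] at h2
    have h3 : z.map (σ.symm.trans σ) = z := by ext i j; simp
    rwa [h3] at h2
  wedge := by
    intro a b
    rw [adV_map, mulVec_map, mulVec_map, wdg_map]
    exact g0_map V σ (h.wedge _ _)
  ty := by
    have hid : (P.map σ) * (P.map σ) = P.map σ := by rw [← mul_map, h.idem]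
    have hm := adV_map V σ P
    rcases h.ty with ⟨h1, h2⟩ | ⟨h1, h2⟩
    · left
      have h3 : adV V P = P := h1
      refine ⟨by rw [show adj (mC V.Q) (mC V.Q)⁻¹ (P.map σ) = _ from hm, h3], ?_⟩
      have h4 := trace_idem hid
      have h5 := trace_idem h.idem
      have h6 : (P.map σ).trace = σ P.trace := by
        simp [Matrix.trace, map_sum]
      rw [h6, h5, map_natCast] at h4
      have h7 := Nat.cast_injective h4
      rwa [← h7]
    · right
      have h3 : adV V P * P = 0 := h1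
      have h4 : P * adV V P = 0 := h2
      refine ⟨?_, ?_⟩
      · rw [show adj (mC V.Q) (mC V.Q)⁻¹ (P.map σ) = _ from hm, ← mul_map, h3,
          Matrix.map_zero _ (map_zero σ)]
      · rw [show adj (mC V.Q) (mC V.Q)⁻¹ (P.map σ) = _ from hm, ← mul_map, h4,
          Matrix.map_zero _ (map_zero σ)]
  ne := by
    intro h0
    apply h.ne
    ext i j
    have := congrFun (congrFun h0 i) j
    simpa using this

theorem Gd.dich {V : HS n} {P P' : Matrix (Fin n) (Fin n) ℂ} (h : Gd V P) (h' : Gd V P') :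
    P' * P = 0 ∨ P' * P = P :=
  key (QR V) (RQ V) (Qt V) (Rt V) h.idem h.ne h.ty h'.idem
    (fun a b => h'.comm _ (h.wedge a b)) (fun a b => h'.ad.comm _ (h.wedge a b))

theorem Gd.orth {V : HS n} {P P' : Matrix (Fin n) (Fin n) ℂ} (h : Gd V P) (h' : Gd V P')
    (hne : P ≠ P') : P' * P = 0 := by
  rcases h.dich h' with h1 | h1
  · exact h1
  exfalso
  rcases h'.dich h with h2 | h2
  · apply h.ne
    calc P = P * P := h.idem.symm
      _ = P * (P' * P) := by rw [h1]
      _ = 0 := by rw [← Matrix.mul_assoc, h2, Matrix.zero_mul]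
  · rcases h.ad.dich h'.ad with h3 | h3
    · rw [← adV_mul, h2] at h3
      exact h'.ad.ne h3
    · rw [← adV_mul, h2] at h3
      apply hne
      rw [← adV_adV V P, ← adV_adV V P', h3]

end blk

theorem blk : S_blk := by
  classical
  intro n V P hP hx
  set Q := mC V.Q with hQdef
  have hG : Gd V P := by
    refine ⟨hP.idem, hP.comm, hP.wedge, ?_, ?_⟩
    · rcases hP.type with ⟨h1, -, -, h2⟩ | ⟨h1, h2, -⟩
      · exact Or.inl ⟨h1, h2⟩
      · exact Or.inr ⟨h1, h2⟩
    · intro h0
      apply hx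
      rcases hP.type with ⟨-, h1, -, -⟩ | ⟨-, -, h1⟩
      · rw [← h1, h0, Matrix.mul_zero]
      · rw [← h1, h0, show adV V (0 : Matrix (Fin n) (Fin n) ℂ) = 0 from adj_zero,
          Matrix.mul_zero, add_zero]
  let SS : Set (Matrix (Fin n) (Fin n) ℂ) :=
    {p | ∃ σ : ℂ ≃+* ℂ, p = P.map σ ∨ p = (adV V P).map σ}
  have hSS : ∀ p ∈ SS, Gd V p := by
    rintro p ⟨σ, rfl | rfl⟩
    · exact hG.map σ
    · exact hG.ad.map σ
  have horth : ∀ p ∈ SS, ∀ q ∈ SS, p ≠ q → p * q = 0 := fun p hp q hq hne =>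
    (hSS q hq).orth (hSS p hp) (Ne.symm hne)
  have hli : LinearIndependent ℂ (fun p : SS => (p : Matrix (Fin n) (Fin n) ℂ)) := by
    rw [linearIndependent_iff']
    intro s c hc i hi
    have h1 : (∑ j ∈ s, c j • (j : Matrix (Fin n) (Fin n) ℂ)) * (i : Matrix (Fin n) (Fin n) ℂ)
        = 0 := by rw [hc, Matrix.zero_mul]
    rw [Finset.sum_mul, Finset.sum_eq_single i] at h1
    · rw [Matrix.smul_mul, (hSS _ i.2).idem] at h1
      rcases smul_eq_zero.1 h1 with h2 | h2
      · exact h2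
      · exact absurd h2 (hSS _ i.2).ne
    · intro j _ hj
      rw [Matrix.smul_mul, horth _ j.2 _ i.2 (fun h => hj (Subtype.ext h)), smul_zero]
    · intro h
      exact absurd hi h
  have hfin : SS.Finite := hli.setFinite
  set s := hfin.toFinset with hs
  have hmem : ∀ p, p ∈ s ↔ p ∈ SS := fun p => hfin.mem_toFinset
  set T : Matrix (Fin n) (Fin n) ℂ := ∑ p ∈ s, p with hT
  have hTp : ∀ p ∈ SS, T * p = p := by
    intro p hp
    rw [hT, Finset.sum_mul, Finset.sum_eq_single p]
    · exact (hSS p hp).idem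
    · intro q hq hne
      exact horth q ((hmem q).1 hq) p hp hne
    · intro h
      exact absurd ((hmem p).2 hp) h
  have hpT : ∀ p ∈ SS, p * T = p := by
    intro p hp
    rw [hT, Finset.mul_sum, Finset.sum_eq_single p]
    · exact (hSS p hp).idem
    · intro q hq hne
      exact horth p hp q ((hmem q).1 hq) (Ne.symm hne)
    · intro h
      exact absurd ((hmem p).2 hp) h
  have hTcomm : ∀ z ∈ g0 V, z * T = T * z := by
    intro z hz
    rw [hT, Finset.mul_sum, Finset.sum_mul]
    exact Finset.sum_congr rfl fun p hp => (hSS p ((hmem p).1 hp)).comm z hz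
  have hxT : ∀ σ : ℂ ≃+* ℂ, V.x.map σ * (1 - T) = 0 := by
    intro σ
    have hk : ∀ p ∈ SS, p * (1 - T) = 0 := by
      intro p hp
      rw [Matrix.mul_sub, hpT p hp, Matrix.mul_one, sub_self]
    rcases hP.type with ⟨-, h1, -, -⟩ | ⟨-, -, h1⟩
    · have h2 : V.x.map σ = V.x.map σ * P.map σ := by rw [← mul_map, h1]
      rw [h2, Matrix.mul_assoc, hk _ ⟨σ, Or.inl rfl⟩, Matrix.mul_zero]
    · have h2 : V.x.map σ = V.x.map σ * P.map σ + V.x.map σ * (adV V P).map σ := by
        rw [← mul_map, ← mul_map, ← add_map, h1]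
      rw [h2, Matrix.add_mul, Matrix.mul_assoc, Matrix.mul_assoc, hk _ ⟨σ, Or.inl rfl⟩,
        hk _ ⟨σ, Or.inr rfl⟩, Matrix.mul_zero, add_zero]
  have hnull : ∀ z ∈ g0 V, z * (1 - T) = 0 := by
    intro z hz
    let L : Submodule ℂ (Matrix (Fin n) (Fin n) ℂ) :=
      { carrier := {z | z * (1 - T) = 0}
        zero_mem' := by
          change (0 : Matrix (Fin n) (Fin n) ℂ) * (1 - T) = 0
          rw [Matrix.zero_mul]
        add_mem' := by
          intro a b ha hb
          change (a + b) * (1 - T) = 0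
          change a * (1 - T) = 0 at ha
          change b * (1 - T) = 0 at hb
          rw [Matrix.add_mul, ha, hb, add_zero]
        smul_mem' := by
          intro c a ha
          change (c • a) * (1 - T) = 0
          change a * (1 - T) = 0 at ha
          rw [Matrix.smul_mul, ha, smul_zero] }
    refine hz L ?_ hxT
    intro a ha b hb
    change a * (1 - T) = 0 at ha
    change b * (1 - T) = 0 at hb
    change (a * b - b * a) * (1 - T) = 0
    rw [Matrix.sub_mul, Matrix.mul_assoc, Matrix.mul_assoc, ha, hb, Matrix.mul_zero,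
      Matrix.mul_zero, sub_zero]
  let pr' : Option s → Matrix (Fin n) (Fin n) ℂ := fun o => o.elim (1 - T) fun p => p.1
  let N' : Option s → Prop := fun o => o = none
  let e : Fin (Fintype.card (Option s)) ≃ Option s := (Fintype.equivFin (Option s)).symm
  refine ⟨Fintype.card (Option s), fun i => pr' (e i), fun i => N' (e i), ?_, ?_⟩
  · refine ⟨QR V, Qt V, ?_, ?_, ?_, fun z hz => g0_skew V hz, ?_, ?_, ?_⟩
    · rw [Equiv.sum_comp e pr', Fintype.sum_option]
      change (1 - T) + ∑ p : s, (p : Matrix (Fin n) (Fin n) ℂ) = 1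
      rw [Finset.sum_coe_sort s fun p => p, ← hT, sub_add_cancel]
    · intro i j hij
      have hne : e i ≠ e j := fun h => hij (e.injective h)
      have gen : ∀ o o' : Option s, o ≠ o' → pr' o * pr' o' = 0 := by
        rintro (_ | p) (_ | q) h
        · exact absurd rfl h
        · change (1 - T) * q.1 = 0
          rw [Matrix.sub_mul, hTp _ ((hmem _).1 q.2), Matrix.one_mul, sub_self]
        · change p.1 * (1 - T) = 0
          rw [Matrix.mul_sub, hpT _ ((hmem _).1 p.2), Matrix.mul_one, sub_self]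
        · change p.1 * q.1 = 0
          refine horth _ ((hmem _).1 p.2) _ ((hmem _).1 q.2) fun h1 => h ?_
          rw [Subtype.ext h1]
      exact gen _ _ hne
    · intro i z hz
      have gen : ∀ o : Option s, z * pr' o = pr' o * z := by
        rintro (_ | p)
        · change z * (1 - T) = (1 - T) * z
          rw [Matrix.mul_sub, Matrix.sub_mul, hTcomm z hz, Matrix.mul_one, Matrix.one_mul]
        · exact (hSS _ ((hmem _).1 p.2)).comm z hz
      exact gen _
    · intro i hN z hz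
      have h1 : e i = none := hN
      change z * pr' (e i) = 0
      rw [h1]
      exact hnull z hz
    · intro i hN a b
      rcases h : e i with _ | p
      · exact absurd h hN
      · exact (hSS _ ((hmem _).1 p.2)).wedge a b
    · intro i hN
      rcases h : e i with _ | p
      · exact absurd h hN
      · rcases (hSS _ ((hmem _).1 p.2)).ty with ⟨h1, -⟩ | ⟨h1, -⟩
        · exact Or.inl h1
        · exact Or.inr h1
  · intro i hN
    rcases h : e i with _ | p
    · exact absurd h hN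
    · obtain ⟨σ, hσ⟩ := (hmem _).1 p.2
      refine ⟨σ, ?_⟩
      change pr' (e i) = P.map σ ∨ pr' (e i) = (adV V P).map σ
      rw [h]
      exact hσ

end

end Pool.Agent.Y175.KS
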