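import Pool.Agent.Y175.KS.MixB

/-!
# Mixed forms: the theorem
-/

open Matrix Finset Function

set_option linter.unusedSectionVars false

namespace Pool.Agent.Y175.KS.Mix

noncomputable section

open Pool.Agent.W544.PG (HS HW mC cspan cx)
open Pool.Agent.Y89.KS

/-! ### Clifford identities -/

section cliff
variable {n w : ℕ}

theorem mC_map (σ : ℂ ≃+* ℂ) {k : ℕ} (A : Matrix (Fin k) (Fin k) ℚ) : (mC A).map σ = mC A := by
  ext a b
  simp [mC]

/-- the commutator with the Hodge operator -/
theorem ad_gam {V : HS n} {W : HW w} {Γ : Fin n → Matrix (Fin w) (Fin w) ℚ} {c : ℚ}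
    (hC : Cliff V W Γ c) (v : Fin n) :
    W.y * mC (Γ v) - mC (Γ v) * W.y = ∑ p, V.x p v • mC (Γ p) := by
  set G : Fin n → Mw w := fun i => mC (Γ i) with hG
  set R := (mC V.Q)⁻¹ with hR
  set A := V.x * R with hA
  have hrel : ∀ i j, G i * G j + G j * G i = (2 * (c : ℂ) * mC V.Q i j) • (1 : Mw w) := by
    intro i j
    have h := congrArg mC (hC.rel i j)
    have h1 : mC (Γ i * Γ j + Γ j * Γ i) = G i * G j + G j * G i := by
      ext a b
      simp [hG, mC, Matrix.mul_apply]
    have h2 : mC ((2 * c * V.Q i j) • (1 : Matrix (Fin w) (Fin w) ℚ)) =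
        (2 * (c : ℂ) * mC V.Q i j) • (1 : Mw w) := by
      ext a b
      simp only [mC, Matrix.map_apply, Matrix.smul_apply, Matrix.one_apply, smul_eq_mul]
      split_ifs <;> simp
    rw [h1, h2] at h
    exact h
  have hkey : ∀ i j, G i * G j * G v - G v * (G i * G j) =
      (2 * (c : ℂ) * mC V.Q j v) • G i - (2 * (c : ℂ) * mC V.Q i v) • G j := by
    intro i j
    have h1 : G i * (G j * G v + G v * G j) = (2 * (c : ℂ) * mC V.Q j v) • G i := by
      rw [hrel, Matrix.mul_smul, Matrix.mul_one]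
    have h2 : (G i * G v + G v * G i) * G j = (2 * (c : ℂ) * mC V.Q i v) • G j := by
      rw [hrel, Matrix.smul_mul, Matrix.one_mul]
    rw [← h1, ← h2]
    noncomm_ring
  have hQQ : R * mC V.Q = 1 := Matrix.nonsing_inv_mul _ (isUnit_iff_ne_zero.2 (Qdet V))
  have hQQ' : mC V.Q * R = 1 := Matrix.mul_nonsing_inv _ (isUnit_iff_ne_zero.2 (Qdet V))
  have hRt : Rᵀ = R := by
    rw [hR, Matrix.transpose_nonsing_inv, Qt]
  have hAQ : A * mC V.Q = V.x := by
    rw [hA, Matrix.mul_assoc, hQQ, Matrix.mul_one]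
  have hAQ' : Aᵀ * mC V.Q = -V.x := by
    have h := eq_neg_of_add_eq_zero_left V.skew
    rw [hA, Matrix.transpose_mul, hRt, Matrix.mul_assoc, h, Matrix.mul_neg, ← Matrix.mul_assoc,
      hQQ, Matrix.one_mul]
  have hc : (c : ℂ) ≠ 0 := by exact_mod_cast hC.ne
  have h1 : W.y * G v - G v * W.y =
      (1 / (4 * (c : ℂ))) • ∑ i, ∑ j, A i j • (G i * G j * G v - G v * (G i * G j)) := by
    rw [hC.hodge]
    simp only [Matrix.smul_mul, Matrix.mul_smul, Matrix.sum_mul, Matrix.mul_sum, smul_sub,
      Finset.sum_sub_distrib]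
    rfl
  have h2 : ∑ i, ∑ j, A i j • (G i * G j * G v - G v * (G i * G j)) =
      (2 * (c : ℂ)) • (∑ i, (A * mC V.Q) i v • G i) - (2 * (c : ℂ)) • ∑ j, (Aᵀ * mC V.Q) j v • G j := by
    simp only [hkey, smul_sub, Finset.sum_sub_distrib, smul_smul]
    congr 1
    · rw [Finset.smul_sum]
      refine Finset.sum_congr rfl fun i _ => ?_
      rw [smul_smul, Matrix.mul_apply, Finset.mul_sum, Finset.sum_smul]
      exact Finset.sum_congr rfl fun j _ => by congr 1; ring
    · rw [Finset.sum_comm, Finset.smul_sum]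
      refine Finset.sum_congr rfl fun j _ => ?_
      rw [smul_smul, Matrix.mul_apply, Finset.mul_sum, Finset.sum_smul]
      exact Finset.sum_congr rfl fun i _ => by rw [Matrix.transpose_apply]; congr 1; ring
  rw [h1, h2, hAQ, hAQ', ← smul_sub, smul_smul]
  have h3 : ∑ i, V.x i v • G i - ∑ j, (-V.x) j v • G j = (2 : ℂ) • ∑ p, V.x p v • G p := by
    simp only [Matrix.neg_apply, neg_smul, Finset.sum_neg_distrib, sub_neg_eq_add, two_smul]
  rw [h3, smul_smul]
  have h4 : 1 / (4 * (c : ℂ)) * (2 * c) * 2 = 1 := by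
    field_simp
    norm_num
  rw [h4, one_smul]

/-- the same for the conjugates -/
theorem ad_gam' {V : HS n} {W : HW w} {Γ : Fin n → Matrix (Fin w) (Fin w) ℚ} {c : ℚ}
    (hC : Cliff V W Γ c) (σ : ℂ ≃+* ℂ) (v : Fin n) :
    W.y.map σ * mC (Γ v) - mC (Γ v) * W.y.map σ = ∑ p, (V.x.map σ) p v • mC (Γ p) := by
  have h := congrArg (fun A : Mw w => A.map σ) (ad_gam hC v)
  have hm : ∀ M N : Mw w, (M * N).map σ = M.map σ * N.map σ := fun M N => Matrix.map_mul
  have h1 : (W.y * mC (Γ v) - mC (Γ v) * W.y).map σ =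
      W.y.map σ * mC (Γ v) - mC (Γ v) * W.y.map σ := by
    rw [Matrix.map_sub σ (fun a b => map_sub σ a b), hm, hm, mC_map]
  have h2 : (∑ p, V.x p v • mC (Γ p)).map σ = ∑ p, (V.x.map σ) p v • mC (Γ p) := by
    ext a b
    simp only [Matrix.map_apply, Matrix.sum_apply, Matrix.smul_apply, smul_eq_mul, map_sum, map_mul]
    refine Finset.sum_congr rfl fun p _ => ?_
    congr 1
    simp [mC]
  simp only [h1, h2] at h
  exact h

/-- operators which commute with the even Clifford monomials commute with the Hodge operators -/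
theorem comm_y {V : HS n} {W : HW w} {Γ : Fin n → Matrix (Fin w) (Fin w) ℚ} {c : ℚ}
    (hC : Cliff V W Γ c) {d : Mw w}
    (hd : ∀ i j, d * (mC (Γ i) * mC (Γ j)) = mC (Γ i) * mC (Γ j) * d) (σ : ℂ ≃+* ℂ) :
    d * W.y.map σ = W.y.map σ * d := by
  have hm : ∀ M N : Mw w, (M * N).map σ = M.map σ * N.map σ := fun M N => Matrix.map_mul
  have h1 : W.y.map σ = σ (1 / (4 * (c : ℂ))) • ∑ i, ∑ j, σ ((V.x * (mC V.Q)⁻¹) i j) •
      (mC (Γ i) * mC (Γ j)) := by
    rw [hC.hodge]
    ext a b
    simp only [Matrix.map_apply, Matrix.sum_apply, Matrix.smul_apply, smul_eq_mul, map_sum, map_mul]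
    congr 1
    refine Finset.sum_congr rfl fun i _ => Finset.sum_congr rfl fun j _ => ?_
    congr 1
    have h2 := congrFun (congrFun (hm (mC (Γ i)) (mC (Γ j))) a) b
    rw [mC_map, mC_map] at h2
    exact h2
  rw [h1, Matrix.mul_smul, Matrix.smul_mul]
  congr 1
  rw [Matrix.mul_sum, Matrix.sum_mul]
  refine Finset.sum_congr rfl fun i _ => ?_
  rw [Matrix.mul_sum, Matrix.sum_mul]
  refine Finset.sum_congr rfl fun j _ => ?_
  rw [Matrix.mul_smul, Matrix.smul_mul, hd]

end cliff

/-! ### The operators -/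

section cS
variable {n w m : ℕ} (γ γ' : Fin n → Mw w) (d d' : Fin m → Mw w)

theorem cS_add (k : ℕ) (f g : Mw w) : cS γ γ' d d' k (f + g) = cS γ γ' d d' k f + cS γ γ' d d' k g := by
  induction k generalizing f g with
  | zero =>
    show ∑ l, ((f + g) * d' l).trace • d l = (∑ l, (f * d' l).trace • d l) +
      ∑ l, (g * d' l).trace • d l
    rw [← Finset.sum_add_distrib]
    refine Finset.sum_congr rfl fun l _ => ?_
    rw [Matrix.add_mul, Matrix.trace_add, add_smul]
  | succ k ih =>
    show ∑ i, cS γ γ' d d' k ((f + g) * γ i) * γ' i = (∑ i, cS γ γ' d d' k (f * γ i) * γ' i) +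
      ∑ i, cS γ γ' d d' k (g * γ i) * γ' i
    rw [← Finset.sum_add_distrib]
    refine Finset.sum_congr rfl fun i _ => ?_
    rw [Matrix.add_mul, ih, Matrix.add_mul]

theorem cS_smul (k : ℕ) (a : ℂ) (f : Mw w) : cS γ γ' d d' k (a • f) = a • cS γ γ' d d' k f := by
  induction k generalizing f with
  | zero =>
    show ∑ l, ((a • f) * d' l).trace • d l = a • ∑ l, (f * d' l).trace • d l
    rw [Finset.smul_sum]
    refine Finset.sum_congr rfl fun l _ => ?_
    rw [Matrix.smul_mul, Matrix.trace_smul, smul_eq_mul, mul_smul]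
  | succ k ih =>
    show ∑ i, cS γ γ' d d' k ((a • f) * γ i) * γ' i = a • ∑ i, cS γ γ' d d' k (f * γ i) * γ' i
    rw [Finset.smul_sum]
    refine Finset.sum_congr rfl fun i _ => ?_
    rw [Matrix.smul_mul, ih, Matrix.smul_mul]

/-- `cS` as a linear map -/
def cSL (k : ℕ) : Mw w →ₗ[ℂ] Mw w where
  toFun := cS γ γ' d d' k
  map_add' := cS_add γ γ' d d' k
  map_smul' := cS_smul γ γ' d d' k

theorem cSL_apply (k : ℕ) (f : Mw w) : cSL γ γ' d d' k f = cS γ γ' d d' k f := rfl

theorem cSL_succ (k : ℕ) (f : Mw w) :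
    cSL γ γ' d d' (k + 1) f = ∑ i, cSL γ γ' d d' k (f * γ i) * γ' i := rfl

/-- the operators commute with `ad y` -/
theorem cS_ad {x : Matrix (Fin n) (Fin n) ℂ} {y : Mw w} {R : Matrix (Fin n) (Fin n) ℂ}
    (hγ : ∀ v, y * γ v - γ v * y = ∑ p, x p v • γ p) (hγ' : ∀ i, γ' i = ∑ j, R i j • γ j)
    (hR : R * xᵀ + x * R = 0) (hd : ∀ l, d l * y = y * d l) (hd' : ∀ l, d' l * y = y * d' l)
    (k : ℕ) (f : Mw w) :
    cSL γ γ' d d' k (y * f - f * y) = y * cSL γ γ' d d' k f - cSL γ γ' d d' k f * y := by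
  induction k generalizing f with
  | zero =>
    show ∑ l, ((y * f - f * y) * d' l).trace • d l =
      y * (∑ l, (f * d' l).trace • d l) - (∑ l, (f * d' l).trace • d l) * y
    have h1 : ∀ l, ((y * f - f * y) * d' l).trace = 0 := by
      intro l
      rw [Matrix.sub_mul, Matrix.trace_sub, Matrix.mul_assoc, Matrix.trace_mul_comm,
        Matrix.mul_assoc, Matrix.mul_assoc, hd', sub_self]
    simp only [h1, zero_smul, Finset.sum_const_zero]
    rw [Matrix.mul_sum, Matrix.sum_mul, ← Finset.sum_sub_distrib]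
    symm
    refine Finset.sum_eq_zero fun l _ => ?_
    rw [Matrix.mul_smul, Matrix.smul_mul, hd, sub_self]
  | succ k ih =>
    set T : Fin n → Mw w := fun i => cSL γ γ' d d' k (f * γ i) with hT
    have h1 : ∀ i, cSL γ γ' d d' k ((y * f - f * y) * γ i) =
        y * T i - T i * y - ∑ p, x p i • T p := by
      intro i
      have h2 : (y * f - f * y) * γ i = (y * (f * γ i) - f * γ i * y) - ∑ p, x p i • (f * γ p) := by
        have h3 : f * ∑ p, x p i • γ p = ∑ p, x p i • (f * γ p) := by
          rw [Matrix.mul_sum]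
          exact Finset.sum_congr rfl fun p _ => Matrix.mul_smul _ _ _
        rw [← h3, ← hγ]
        noncomm_ring
      rw [h2, map_sub, ih, map_sum]
      simp only [map_smul]
      rfl
    have h2 : cSL γ γ' d d' (k + 1) (y * f - f * y) =
        ∑ i, (y * T i - T i * y - ∑ p, x p i • T p) * γ' i := by
      rw [cSL_succ]
      exact Finset.sum_congr rfl fun i _ => by rw [h1]
    have h3 : cSL γ γ' d d' (k + 1) f = ∑ i, T i * γ' i := rfl
    have h4 : ∀ i, y * γ' i - γ' i * y = ∑ p, (R * xᵀ) i p • γ p := by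
      intro i
      rw [hγ' i, Matrix.mul_sum, Matrix.sum_mul, ← Finset.sum_sub_distrib]
      have h5 : ∀ j, y * R i j • γ j - R i j • γ j * y = ∑ p, (R i j * x p j) • γ p := by
        intro j
        rw [Matrix.mul_smul, Matrix.smul_mul, ← smul_sub, hγ, Finset.smul_sum]
        exact Finset.sum_congr rfl fun p _ => smul_smul _ _ _
      simp only [h5]
      rw [Finset.sum_comm]
      refine Finset.sum_congr rfl fun p _ => ?_
      rw [← Finset.sum_smul, Matrix.mul_apply]
      rfl
    have h5 : ∑ i, (∑ p, x p i • T p) * γ' i = ∑ p, T p * ∑ j, (x * R) p j • γ j := by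
      have h6 : ∀ i, (∑ p, x p i • T p) * γ' i = ∑ p, T p * (x p i • γ' i) := by
        intro i
        rw [Matrix.sum_mul]
        exact Finset.sum_congr rfl fun p _ => by rw [Matrix.smul_mul, Matrix.mul_smul]
      simp only [h6]
      rw [Finset.sum_comm]
      refine Finset.sum_congr rfl fun p _ => ?_
      rw [← Matrix.mul_sum]
      congr 1
      simp only [hγ', Finset.smul_sum, smul_smul]
      rw [Finset.sum_comm]
      refine Finset.sum_congr rfl fun j _ => ?_
      rw [← Finset.sum_smul, Matrix.mul_apply]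
    have h6 : ∑ i, T i * (y * γ' i - γ' i * y) + ∑ i, (∑ p, x p i • T p) * γ' i = 0 := by
      rw [h5, ← Finset.sum_add_distrib]
      refine Finset.sum_eq_zero fun i _ => ?_
      rw [h4, ← Matrix.mul_add, ← Finset.sum_add_distrib]
      have h7 : ∑ p, ((R * xᵀ) i p • γ p + (x * R) i p • γ p) = 0 := by
        refine Finset.sum_eq_zero fun p _ => ?_
        rw [← add_smul, ← Matrix.add_apply, hR, Matrix.zero_apply, zero_smul]
      rw [h7, Matrix.mul_zero]
    rw [h2, h3, Matrix.mul_sum, Matrix.sum_mul, ← Finset.sum_sub_distrib]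
    have h7 : ∑ i, (y * T i - T i * y - ∑ p, x p i • T p) * γ' i =
        ∑ i, (y * (T i * γ' i) - T i * γ' i * y) -
          (∑ i, T i * (y * γ' i - γ' i * y) + ∑ i, (∑ p, x p i • T p) * γ' i) := by
      rw [← Finset.sum_add_distrib, ← Finset.sum_sub_distrib]
      refine Finset.sum_congr rfl fun i _ => ?_
      noncomm_ring
    rw [h7, h6, sub_zero]

end cS

/-! ### The forms are in the system -/

section alg
variable {n w m : ℕ}

/-- the gamma matrices on `V ⊕ W` -/
def gt (γ : Fin n → Mw w) : II n w → Mw w := Sum.elim γ fun _ => 0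

theorem gt_ad {x : Matrix (Fin n) (Fin n) ℂ} {y : Mw w} {γ : Fin n → Mw w}
    (hγ : ∀ v, y * γ v - γ v * y = ∑ p, x p v • γ p) (v : II n w) :
    y * gt γ v - gt γ v * y = ∑ p, (fromBlocks x 0 0 y : Matrix (II n w) (II n w) ℂ) p v • gt γ p := by
  rw [Fintype.sum_sum_type]
  rcases v with v | v
  · show y * γ v - γ v * y = ∑ p, x p v • γ p + ∑ _ : Fin w, (0 : ℂ) • (0 : Mw w)
    rw [hγ]
    simp
  · show y * 0 - 0 * y = ∑ p, (0 : ℂ) • γ p + ∑ p, y p v • (0 : Mw w)
    simp

/-- the reindexing for the contraction of two variables in `V` -/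
def eTh (S : Type) : (S ⊕ Fin 1) ⊕ Fin 1 ≃ S ⊕ Bool where
  toFun := Sum.elim (Sum.elim Sum.inl fun _ => Sum.inr false) fun _ => Sum.inr true
  invFun := Sum.elim (fun s => Sum.inl (Sum.inl s)) fun b => cond b (Sum.inr 0) (Sum.inl (Sum.inr 0))
  left_inv := by
    rintro ((s | i) | i)
    · rfl
    · fin_cases i; rfl
    · fin_cases i; rfl
  right_inv := by rintro (s | (_ | _)) <;> rfl

theorem cnt_elim {S : Type} [Fintype S] (pat : S → Bool) :
    cnt (Sum.elim pat fun _ : Fin 1 => false) = cnt pat := by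
  unfold cnt
  rw [Fintype.sum_sum_type]
  simp

theorem alg {M : ∀ S : Type, Submodule ℂ ((S → II n w) → ℂ)} {E : Mw w}
    {R : Matrix (Fin n) (Fin n) ℂ} (hM : GSys (fromBlocks R 0 0 E⁻¹) M) (hE : E⁻¹ * E = 1)
    {κ : Type} {x : κ → Matrix (Fin n) (Fin n) ℂ} {y : κ → Mw w} {γ γ' : Fin n → Mw w}
    (hγ : ∀ σ v, y σ * γ v - γ v * y σ = ∑ p, x σ p v • γ p) {c : ℂ}
    (hγ' : ∀ i, γ' i = c • ∑ j, R i j • γ j) {d d' : Fin m → Mw w}
    (hd' : ∀ σ l, d' l * y σ = y σ * d' l)
    (hdM : ∀ l, (fun _ : Empty → II n w => d l) ∈ ME M E Empty)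
    (hγM : (fun J : Fin 1 → II n w => gt γ (J 0)) ∈ ME M E (Fin 1)) (N : ℕ)
    (IH : ∀ (S : Type) [Fintype S] [DecidableEq S] (pat : S → Bool) (f : (S → II n w) → ℂ),
      cnt pat = N → Pat pat f → (∀ σ, der (fromBlocks (x σ) 0 0 (y σ)) f = 0) → f ∈ M S)
    (k : ℕ) : ∀ (S : Type) [Fintype S] [DecidableEq S] (pat : S → Bool) (F : (S → II n w) → Mw w),
      cnt pat = N → Pat pat F → (∀ σ, Kd (fromBlocks (x σ) 0 0 (y σ)) (y σ) F) →
      (fun J => cSL γ γ' d d' k (F J)) ∈ ME M E S := by
  induction k with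
  | zero =>
    intro S _ _ pat F hcnt hpat hF
    have h1 : (fun J => cSL γ γ' d d' 0 (F J)) = ∑ l, fun J : S → II n w =>
        (F J * d' l).trace • d l := by
      funext J
      rw [Finset.sum_apply]
      rfl
    rw [h1]
    refine Submodule.sum_mem _ fun l _ => ?_
    have h2 : (fun J => (F J * d' l).trace) ∈ M S := by
      refine IH S pat _ hcnt ?_ fun σ => kd_tr (hd' σ l) (hF σ)
      intro J hJ
      show (F J * d' l).trace = 0
      rw [hpat J hJ, Matrix.zero_mul, Matrix.trace_zero]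
    have h3 := me_reidx hM (Equiv.sumEmpty S Empty) (me_smul hM h2 (hdM l))
    have h4 : ∀ J : S → II n w, (fun s => J (Equiv.sumEmpty S Empty (Sum.inl s))) = J := by
      intro J
      funext s
      rw [Equiv.sumEmpty_apply_inl]
    simp only [h4] at h3
    exact h3
  | succ k ih =>
    intro S _ _ pat F hcnt hpat hF
    have h1 := ih (S ⊕ Fin 1) (Sum.elim pat fun _ => false)
      (fun J : S ⊕ Fin 1 → II n w => F (fun s => J (Sum.inl s)) * gt γ (J (Sum.inr 0)))
      (by rw [cnt_elim, hcnt]) (by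
        intro J hJ
        show F (fun s => J (Sum.inl s)) * gt γ (J (Sum.inr 0)) = 0
        by_cases h : (fun s => (J (Sum.inl s)).isRight) = pat
        · rcases h2 : J (Sum.inr 0) with v | v
          · exfalso
            apply hJ
            funext s
            rcases s with s | s
            · exact congrFun h s
            · fin_cases s
              show (J (Sum.inr 0)).isRight = false
              rw [h2]
              rfl
          · show _ * (0 : Mw w) = 0
            rw [Matrix.mul_zero]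
        · rw [hpat _ h, Matrix.zero_mul])
      fun σ => kd_theta (gt_ad (hγ σ)) (hF σ)
    have h2 := me_con hM (me_reidx hM (eTh S) (me_mul hM hE h1 hγM))
    have h3 : (fun J => cSL γ γ' d d' (k + 1) (F J)) = c • fun J : S → II n w =>
        ∑ p, ∑ q, (fromBlocks R 0 0 E⁻¹ : Matrix (II n w) (II n w) ℂ) p q •
          (cSL γ γ' d d' k (F J * gt γ p) * gt γ q) := by
      funext J
      rw [cSL_succ, Pi.smul_apply]
      simp only [Fintype.sum_sum_type, fromBlocks_apply₁₁, fromBlocks_apply₁₂, fromBlocks_apply₂₁,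
        Matrix.zero_apply, zero_smul, Finset.sum_const_zero, add_zero]
      have h4 : ∀ q : Fin w, gt γ (Sum.inr q) = 0 := fun _ => rfl
      have h5 : ∀ q : Fin n, gt γ (Sum.inl q) = γ q := fun _ => rfl
      simp only [h4, h5, Matrix.mul_zero, smul_zero, Finset.sum_const_zero, add_zero]
      rw [Finset.smul_sum]
      refine Finset.sum_congr rfl fun i _ => ?_
      rw [hγ' i, Matrix.mul_smul, Matrix.mul_sum]
      congr 1
      exact Finset.sum_congr rfl fun j _ => Matrix.mul_smul _ _ _
    rw [h3]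
    apply Submodule.smul_mem
    have h6 : (fun J : S → II n w =>
        ∑ p, ∑ q, (fromBlocks R 0 0 E⁻¹ : Matrix (II n w) (II n w) ℂ) p q •
          (cSL γ γ' d d' k (F J * gt γ p) * gt γ q)) = fun J =>
        ∑ p, ∑ q, (fromBlocks R 0 0 E⁻¹ : Matrix (II n w) (II n w) ℂ) p q •
          (fun J : (S ⊕ Fin 1) ⊕ Fin 1 → II n w => (fun J : S ⊕ Fin 1 → II n w =>
            cSL γ γ' d d' k (F (fun s => J (Sum.inl s)) * gt γ (J (Sum.inr 0))))
              (fun s => J (Sum.inl s)) * gt γ (J (Sum.inr 0)))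
            (fun s => (Sum.elim J fun b => cond b q p : S ⊕ Bool → II n w) (eTh S s)) := by
      funext J
      exact Finset.sum_congr rfl fun p _ => Finset.sum_congr rfl fun q _ => rfl
    rw [h6]
    exact h2

end alg

/-! ### Two variables -/

section two
variable {n w : ℕ} {S S' : Type} [Fintype S] [DecidableEq S] [Fintype S'] [DecidableEq S']

theorem cnt_card (pat : S → Bool) : cnt pat = (univ.filter fun s => pat s = true).card := by
  rw [Finset.card_filter]
  unfold cnt
  refine Finset.sum_congr rfl fun s _ => ?_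
  cases pat s <;> rfl

theorem der_reidx (X : Matrix (II n w) (II n w) ℂ) (e : S' ≃ S) (f : (S → II n w) → ℂ)
    (J : S' → II n w) :
    der X (fun J : S' → II n w => f (fun s => J (e.symm s))) J =
      der X f (fun s => J (e.symm s)) := by
  show ∑ j, ∑ p, X p (J j) * f (fun s => update J j p (e.symm s)) =
    ∑ j, ∑ p, X p (J (e.symm j)) * f (update (fun s => J (e.symm s)) j p)
  rw [← Equiv.sum_comp e]
  refine Finset.sum_congr rfl fun j _ => Finset.sum_congr rfl fun p _ => ?_
  rw [Equiv.symm_apply_apply]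
  congr 2
  funext s
  by_cases h : s = e j
  · subst h
    rw [Equiv.symm_apply_apply, update_self, update_self]
  · rw [update_of_ne h, update_of_ne]
    intro h'
    apply h
    rw [← h', Equiv.apply_symm_apply]

/-- the variables except two -/
def eTwo (t1 t2 : S) (h : t1 ≠ t2) : {s : S // s ≠ t1 ∧ s ≠ t2} ⊕ Bool ≃ S where
  toFun := Sum.elim (fun s => s.1) fun b => cond b t2 t1
  invFun s := if h1 : s = t1 then Sum.inr false else if h2 : s = t2 then Sum.inr true else
    Sum.inl ⟨s, h1, h2⟩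
  left_inv := by
    rintro (⟨s, h1, h2⟩ | (_ | _))
    · show (if h1 : s = t1 then Sum.inr false else if h2 : s = t2 then Sum.inr true else
        Sum.inl ⟨s, h1, h2⟩ : {s : S // s ≠ t1 ∧ s ≠ t2} ⊕ Bool) = _
      rw [dif_neg h1, dif_neg h2]
    · show (if h1 : t1 = t1 then Sum.inr false else if h2 : t1 = t2 then Sum.inr true else
        Sum.inl ⟨t1, h1, h2⟩ : {s : S // s ≠ t1 ∧ s ≠ t2} ⊕ Bool) = _
      rw [dif_pos rfl]
    · show (if h1 : t2 = t1 then Sum.inr false else if h2 : t2 = t2 then Sum.inr true else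
        Sum.inl ⟨t2, h1, h2⟩ : {s : S // s ≠ t1 ∧ s ≠ t2} ⊕ Bool) = _
      rw [dif_neg h.symm, dif_pos rfl]
  right_inv := by
    intro s
    by_cases h1 : s = t1
    · subst h1
      show Sum.elim _ _ (if h1 : s = s then Sum.inr false else if h2 : s = t2 then Sum.inr true else
        Sum.inl ⟨s, h1, h2⟩ : {s' : S // s' ≠ s ∧ s' ≠ t2} ⊕ Bool) = _
      rw [dif_pos rfl]
      rfl
    · by_cases h2 : s = t2
      · subst h2
        show Sum.elim _ _ (if h1 : s = t1 then Sum.inr false else if h2 : s = s then Sum.inr true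
          else Sum.inl ⟨s, h1, h2⟩ : {s' : S // s' ≠ t1 ∧ s' ≠ s} ⊕ Bool) = _
        rw [dif_neg h1, dif_pos rfl]
        rfl
      · show Sum.elim _ _ (if h1 : s = t1 then Sum.inr false else if h2 : s = t2 then Sum.inr true
          else Sum.inl ⟨s, h1, h2⟩ : {s' : S // s' ≠ t1 ∧ s' ≠ t2} ⊕ Bool) = _
        rw [dif_neg h1, dif_neg h2]
        rfl

end two

/-- (MIX) -/
theorem mix (hcexp : S_cexp) : S_mix := by
  intro n w V W Γ c hC M hM hV hd hΓ
  have hdet : (mC W.E).det ≠ 0 := by
    intro h0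
    have h1 : (mC W.E * ((2 * Complex.I) • W.y)).det = 0 := by
      rw [det_mul, h0, zero_mul]
    obtain ⟨v, hv, hv0⟩ := Matrix.exists_mulVec_eq_zero_iff.2 h1
    have := W.pos v hv
    rw [hv0] at this
    simp at this
  have hE' : mC W.E * (mC W.E)⁻¹ = 1 := Matrix.mul_nonsing_inv _ (isUnit_iff_ne_zero.2 hdet)
  have hE : (mC W.E)⁻¹ * mC W.E = 1 := Matrix.nonsing_inv_mul _ (isUnit_iff_ne_zero.2 hdet)
  have hQQ : (mC V.Q)⁻¹ * mC V.Q = 1 := Matrix.nonsing_inv_mul _ (isUnit_iff_ne_zero.2 (Qdet V))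
  have hQQ' : mC V.Q * (mC V.Q)⁻¹ = 1 := Matrix.mul_nonsing_inv _ (isUnit_iff_ne_zero.2 (Qdet V))
  have hc : (c : ℂ) ≠ 0 := by exact_mod_cast hC.ne
  have hid : ∀ {k : ℕ} (A : Matrix (Fin k) (Fin k) ℂ), A.map (RingEquiv.refl ℂ) = A := by
    intro k A
    ext a b
    simp
  have hmul : ∀ {k : ℕ} (σ : ℂ ≃+* ℂ) (A B : Matrix (Fin k) (Fin k) ℂ),
      (A * B).map σ = A.map σ * B.map σ := fun σ A B => Matrix.map_mul
  have hysk : ∀ σ : ℂ ≃+* ℂ, (W.y.map σ)ᵀ * mC W.E + mC W.E * W.y.map σ = 0 := by
    intro σ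
    have h := congrArg (fun A : Mw w => A.map σ) W.skew
    have h2 : (W.yᵀ * mC W.E + mC W.E * W.y).map σ =
        (W.y.map σ)ᵀ * mC W.E + mC W.E * W.y.map σ := by
      rw [Matrix.map_add σ (fun a b => map_add σ a b), hmul, hmul, mC_map]
      rfl
    simp only [h2] at h
    rw [h]
    ext a b
    simp
  have hxsk : ∀ σ : ℂ ≃+* ℂ, (mC V.Q)⁻¹ * (V.x.map σ)ᵀ + V.x.map σ * (mC V.Q)⁻¹ = 0 := by
    intro σ
    have h := g0_skew V (z := V.x.map σ) fun L _ h2 => h2 σ
    have h1 := congrArg (fun A => (mC V.Q)⁻¹ * A * (mC V.Q)⁻¹) h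
    simp only [Matrix.mul_add, Matrix.add_mul, Matrix.mul_zero, Matrix.zero_mul] at h1
    rw [Matrix.mul_assoc, Matrix.mul_assoc, hQQ', Matrix.mul_one, ← Matrix.mul_assoc (mC V.Q)⁻¹,
      hQQ, Matrix.one_mul] at h1
    exact h1
  have hγ : ∀ (σ : ℂ ≃+* ℂ) (v : Fin n), W.y.map σ * mC (Γ v) - mC (Γ v) * W.y.map σ =
      ∑ p, (V.x.map σ) p v • mC (Γ p) := fun σ v => ad_gam' hC σ v
  obtain ⟨m, d, d', hd1, hd2, hinj⟩ := hcexp (Fin w) n ((c : ℂ) • mC V.Q)
    ((c : ℂ)⁻¹ • (mC V.Q)⁻¹) (fun i => mC (Γ i)) (by rw [transpose_smul, Qt]) (by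
      rw [Matrix.smul_mul, Matrix.mul_smul, hQQ', smul_smul, mul_inv_cancel₀ hc, one_smul]) (by
      intro i j
      have h := congrArg mC (hC.rel i j)
      have h1 : mC (Γ i * Γ j + Γ j * Γ i) = mC (Γ i) * mC (Γ j) + mC (Γ j) * mC (Γ i) := by
        ext a b
        simp [mC, Matrix.mul_apply]
      have h2 : mC ((2 * c * V.Q i j) • (1 : Matrix (Fin w) (Fin w) ℚ)) =
          (2 * ((c : ℂ) • mC V.Q) i j) • (1 : Mw w) := by
        ext a b
        simp only [mC, Matrix.map_apply, Matrix.smul_apply, Matrix.one_apply, smul_eq_mul]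
        split_ifs <;> simp [mul_assoc]
      rw [h1, h2] at h
      exact h)
  set γ : Fin n → Mw w := fun i => mC (Γ i) with hγdef
  set γ' : Fin n → Mw w := fun i => ∑ j, ((c : ℂ)⁻¹ • (mC V.Q)⁻¹) i j • γ j with hγ'def
  have hγ' : ∀ i, γ' i = (c : ℂ)⁻¹ • ∑ j, (mC V.Q)⁻¹ i j • γ j := by
    intro i
    rw [hγ'def, Finset.smul_sum]
    refine Finset.sum_congr rfl fun j _ => ?_
    rw [Matrix.smul_apply, smul_assoc]
  have hdy : ∀ (σ : ℂ ≃+* ℂ) l, d l * W.y.map σ = W.y.map σ * d l := fun σ l =>
    comm_y hC (hd1 l) σ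
  have hdy' : ∀ (σ : ℂ ≃+* ℂ) l, d' l * W.y.map σ = W.y.map σ * d' l := fun σ l =>
    comm_y hC (hd2 l) σ
  have hxsk' : ∀ σ : ℂ ≃+* ℂ, ((c : ℂ)⁻¹ • (mC V.Q)⁻¹) * (V.x.map σ)ᵀ +
      V.x.map σ * ((c : ℂ)⁻¹ • (mC V.Q)⁻¹) = 0 := by
    intro σ
    rw [Matrix.smul_mul, Matrix.mul_smul, ← smul_add, hxsk, smul_zero]
  have hdM : ∀ l, (fun _ : Empty → II n w => d l) ∈ ME M (mC W.E) Empty := by
    intro l
    have h := hd (d l) fun σ => hdy σ l
    have h1 : extE (mC W.E) (fun _ : Empty → Fin n => d l) =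
        exM (mC W.E) (fun _ : Empty → II n w => d l) := by
      apply extE_eq
      · intro K a b
        rfl
      · intro J s b hs
        exact isEmptyElim s
      · intro J i a hi
        show (fromBlocks 0 0 0 (mC W.E * d l) : Matrix (II n w) (II n w) ℂ) (J (Sum.inr false))
          (J (Sum.inr true)) = 0
        rcases h0 : J (Sum.inr false) with p | p <;> rcases h1 : J (Sum.inr true) with q | q <;>
          try rfl
        cases i
        · rw [h0] at hi; cases hi
        · rw [h1] at hi; cases hi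
    rw [h1] at h
    exact h
  have hγM : (fun J : Fin 1 → II n w => gt γ (J 0)) ∈ ME M (mC W.E) (Fin 1) := by
    have h1 : extE (mC W.E) (fun J : Fin 1 → Fin n => mC (Γ (J 0))) =
        exM (mC W.E) (fun J : Fin 1 → II n w => gt γ (J 0)) := by
      apply extE_eq
      · intro K a b
        rfl
      · intro J s b hs
        have hs0 : s = 0 := Subsingleton.elim _ _
        subst hs0
        show (fromBlocks 0 0 0 (mC W.E * gt γ (J (Sum.inl 0))) : Matrix (II n w) (II n w) ℂ)
          (J (Sum.inr false)) (J (Sum.inr true)) = 0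
        rw [hs]
        show (fromBlocks 0 0 0 (mC W.E * 0) : Matrix (II n w) (II n w) ℂ)
          (J (Sum.inr false)) (J (Sum.inr true)) = 0
        rw [Matrix.mul_zero, fromBlocks_zero]
        rfl
      · intro J i a hi
        show (fromBlocks 0 0 0 (mC W.E * gt γ (J (Sum.inl 0))) : Matrix (II n w) (II n w) ℂ)
          (J (Sum.inr false)) (J (Sum.inr true)) = 0
        rcases h0 : J (Sum.inr false) with p | p <;> rcases h1 : J (Sum.inr true) with q | q <;>
          try rfl
        cases i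
        · rw [h0] at hi; cases hi
        · rw [h1] at hi; cases hi
    rw [h1] at hΓ
    exact hΓ
  -- the operator `Ψ`
  set Ψ : Mw w →ₗ[ℂ] Mw w := ∑ k ∈ Finset.range (n + 1), cSL γ γ' d d' k with hΨ
  have hΨinj : Function.Injective Ψ := by
    rw [injective_iff_map_eq_zero]
    intro f hf
    apply hinj f
    rw [hΨ, LinearMap.sum_apply] at hf
    exact hf
  set Φ : Mw w ≃ₗ[ℂ] Mw w := LinearEquiv.ofInjectiveEndo Ψ hΨinj with hΦ
  have hΦa : ∀ f, Φ f = Ψ f := fun f => rfl
  have hΨad : ∀ (σ : ℂ ≃+* ℂ) f, Ψ (W.y.map σ * f - f * W.y.map σ) =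
      W.y.map σ * Ψ f - Ψ f * W.y.map σ := by
    intro σ f
    rw [hΨ, LinearMap.sum_apply, LinearMap.sum_apply, Matrix.mul_sum, Matrix.sum_mul,
      ← Finset.sum_sub_distrib]
    refine Finset.sum_congr rfl fun k _ => ?_
    exact cS_ad γ γ' d d' (hγ σ) (fun i => rfl) (hxsk' σ) (hdy σ) (hdy' σ) k f
  have hΦad : ∀ (σ : ℂ ≃+* ℂ) f, Φ.symm.toLinearMap (W.y.map σ * f - f * W.y.map σ) =
      W.y.map σ * Φ.symm.toLinearMap f - Φ.symm.toLinearMap f * W.y.map σ := by
    intro σ f
    obtain ⟨g, rfl⟩ := Φ.surjective f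
    show Φ.symm (W.y.map σ * Φ g - Φ g * W.y.map σ) = W.y.map σ * Φ.symm (Φ g) -
      Φ.symm (Φ g) * W.y.map σ
    rw [LinearEquiv.symm_apply_apply, hΦa, ← hΨad, ← hΦa, LinearEquiv.symm_apply_apply]
  have key : ∀ N, ∀ (S : Type) [Fintype S] [DecidableEq S] (pat : S → Bool)
      (f : (S → II n w) → ℂ), cnt pat = N → Pat pat f →
      (∀ σ : ℂ ≃+* ℂ, der (fromBlocks (V.x.map σ) 0 0 (W.y.map σ)) f = 0) → f ∈ M S := by
    intro N
    induction N using Nat.strong_induction_on with
    | _ N IH =>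
    intro S _ _ pat f hcnt hpat hf
    rcases N with _ | _ | N
    · -- no variable in `W`
      have hpat0 : ∀ s, pat s = false := by
        intro s
        have h := (Finset.sum_eq_zero_iff.1 hcnt) s (Finset.mem_univ s)
        cases hs : pat s
        · rfl
        · rw [hs] at h
          simp at h
      have h1 : extV w (fun K : S → Fin n => f (fun s => Sum.inl (K s))) = f := by
        apply extV_eq
        · intro K
          rfl
        · intro J s b hs
          apply hpat
          intro hh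
          have := congrFun hh s
          simp only [hs, hpat0] at this
          simp at this
      rw [← h1]
      apply hV
      apply g0_der
      intro σ
      funext K
      rw [← der_inl (V.x.map σ) (W.y.map σ), hf σ]
      rfl
    · -- one variable in `W`
      have h1 := hf (RingEquiv.refl ℂ)
      rw [hid, hid] at h1
      rw [one_W V W pat hcnt f hpat h1]
      exact Submodule.zero_mem _
    · -- two variables in `W`
      obtain ⟨t1, ht1, t2, ht2, h12⟩ : ∃ t1 ∈ univ.filter (fun s => pat s = true),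
          ∃ t2 ∈ univ.filter (fun s => pat s = true), t1 ≠ t2 := by
        apply Finset.one_lt_card.1
        rw [← cnt_card, hcnt]
        omega
      rw [Finset.mem_filter] at ht1 ht2
      have ht1' := ht1.2
      have ht2' := ht2.2
      set e := eTwo t1 t2 h12 with he
      have he1 : e.symm t1 = Sum.inr false := by
        rw [Equiv.symm_apply_eq]
        rfl
      have he2 : e.symm t2 = Sum.inr true := by
        rw [Equiv.symm_apply_eq]
        rfl
      set f' : ({s : S // s ≠ t1 ∧ s ≠ t2} ⊕ Bool → II n w) → ℂ :=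
        fun J => f (fun s => J (e.symm s)) with hf'
      set F : ({s : S // s ≠ t1 ∧ s ≠ t2} → II n w) → Mw w := fun K => (mC W.E)⁻¹ *
        Matrix.of fun a b => f' (Sum.elim K fun i => Sum.inr (cond i b a)) with hF
      have hex : exM (mC W.E) F = f' := by
        funext J
        have h1 : mC W.E * F (fun s => J (Sum.inl s)) = Matrix.of fun a b =>
            f' (Sum.elim (fun s => J (Sum.inl s)) fun i => Sum.inr (cond i b a)) := by
          rw [hF, ← Matrix.mul_assoc, hE', Matrix.one_mul]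
        show (fromBlocks 0 0 0 (mC W.E * F (fun s => J (Sum.inl s))) :
          Matrix (II n w) (II n w) ℂ) (J (Sum.inr false)) (J (Sum.inr true)) = f' J
        rw [h1]
        rcases h2 : J (Sum.inr false) with a | a
        · have h3 : f' J = 0 := by
            apply hpat
            intro hh
            have := congrFun hh t1
            simp only [he1, h2, ht1'] at this
            simp at this
          rw [h3]
          rcases J (Sum.inr true) with b | b <;> rfl
        · rcases h4 : J (Sum.inr true) with b | b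
          · have h3 : f' J = 0 := by
              apply hpat
              intro hh
              have := congrFun hh t2
              simp only [he2, h4, ht2'] at this
              simp at this
            rw [h3]
            rfl
          · show f' (Sum.elim (fun s => J (Sum.inl s)) fun i => Sum.inr (cond i b a)) = f' J
            congr 1
            funext s
            rcases s with s | (_ | _)
            · rfl
            · exact h2.symm
            · exact h4.symm
      set pat' : {s : S // s ≠ t1 ∧ s ≠ t2} → Bool := fun s => pat s.1 with hpat'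
      have hcnt' : cnt pat' = N := by
        have h1 : cnt pat = cnt pat' + 2 := by
          unfold cnt
          rw [← Equiv.sum_comp e, Fintype.sum_sum_type, Fintype.sum_bool]
          have h2 : (pat (e (Sum.inr true))).toNat = 1 := by
            show (pat t2).toNat = 1
            rw [ht2']
            rfl
          have h3 : (pat (e (Sum.inr false))).toNat = 1 := by
            show (pat t1).toNat = 1
            rw [ht1']
            rfl
          rw [h2, h3]
          rfl
        omega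
      have hFpat : Pat pat' F := by
        intro K hK
        have h1 : (Matrix.of fun a b => f' (Sum.elim K fun i => Sum.inr (cond i b a))) =
            (0 : Mw w) := by
          ext a b
          show f' (Sum.elim K fun i => Sum.inr (cond i b a)) = 0
          apply hpat
          intro hh
          apply hK
          funext s
          have h2 := congrFun hh s.1
          have h3 : e.symm s.1 = Sum.inl s := by
            rw [Equiv.symm_apply_eq]
            rfl
          simp only [h3] at h2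
          exact h2
        show (mC W.E)⁻¹ * (Matrix.of fun a b => f' (Sum.elim K fun i => Sum.inr (cond i b a))) = 0
        rw [h1, Matrix.mul_zero]
      have hFk : ∀ σ : ℂ ≃+* ℂ,
          Kd (fromBlocks (V.x.map σ) 0 0 (W.y.map σ)) (W.y.map σ) F := by
        intro σ
        refine kd_of_der _ _ (hysk σ) hE F ?_
        rw [hex]
        funext J
        rw [hf', der_reidx, hf σ]
        rfl
      set F' : ({s : S // s ≠ t1 ∧ s ≠ t2} → II n w) → Mw w := fun K =>
        Φ.symm.toLinearMap (F K) with hF'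
      have hF'pat : Pat pat' F' := by
        intro K hK
        show Φ.symm.toLinearMap (F K) = 0
        rw [hFpat K hK, map_zero]
      have hF'k : ∀ σ : ℂ ≃+* ℂ,
          Kd (fromBlocks (V.x.map σ) 0 0 (W.y.map σ)) (W.y.map σ) F' := fun σ =>
        kd_lin Φ.symm.toLinearMap (hΦad σ) (hFk σ)
      have hFF : F = ∑ k ∈ Finset.range (n + 1), fun K => cSL γ γ' d d' k (F' K) := by
        funext K
        rw [Finset.sum_apply, ← LinearMap.sum_apply, ← hΨ, ← hΦa]
        exact (Φ.apply_symm_apply (F K)).symm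
      have hFM : F ∈ ME M (mC W.E) {s : S // s ≠ t1 ∧ s ≠ t2} := by
        rw [hFF]
        refine Submodule.sum_mem _ fun k _ => ?_
        exact alg hM hE (x := fun σ : ℂ ≃+* ℂ => V.x.map σ) (y := fun σ : ℂ ≃+* ℂ => W.y.map σ)
          hγ hγ' hdy' hdM hγM N (fun S _ _ pat f h1 h2 h3 => IH N (by omega) S pat f h1 h2 h3) k
          _ pat' F' hcnt' hF'pat hF'k
      have h1 : f' ∈ M ({s : S // s ≠ t1 ∧ s ≠ t2} ⊕ Bool) := by
        rw [← hex]
        exact hFM
      have h2 := hM.reidx _ _ e _ h1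
      have h3 : (fun J : S → II n w => f' (fun s => J (e s))) = f := by
        funext J
        show f (fun s => J (e (e.symm s))) = f J
        simp only [Equiv.apply_symm_apply]
      rw [h3] at h2
      exact h2
  intro S _ _ f hf
  rw [← sum_prt f]
  refine Submodule.sum_mem _ fun pat _ => key _ S pat _ rfl (prt_pat pat f) fun σ => ?_
  rw [der_prt, hf σ]
  funext J
  show (if _ then (0 : ℂ) else 0) = 0
  rw [ite_self]

end

end Pool.Agent.Y175.KS.Mix
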