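import Pool.Agent.Y89.KS.Defs3
import Pool.Agent.Y89.KS.ExtE
import Pool.Agent.Y89.KS.Beta

/-!
# Mixed forms: operators on the variables, parity
-/

open Matrix Finset Function

set_option linter.unusedSectionVars false

namespace Pool.Agent.Y175.KS.Mix

noncomputable section

open Pool.Agent.W544.PG (HS HW mC cspan cx)
open Pool.Agent.Y89.KS

/-! ### Sums of commuting operators with integral eigenvalues -/

section ops
variable {E : Type} [AddCommGroup E] [Module ℂ E] {ι : Type} [DecidableEq ι]

theorem int_sum (s : Finset ι) (A : ι → Module.End ℂ E)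
    (hA : ∀ i ∈ s, A i * A i * A i = A i)
    (hc : ∀ i ∈ s, ∀ j ∈ s, i ≠ j → A i * A j = A j * A i) (μ : ℂ) (hμ : ∀ k : ℤ, μ ≠ k) (f : E)
    (hf : (∑ i ∈ s, A i) f = μ • f) : f = 0 := by
  induction s using Finset.induction_on generalizing μ f with
  | empty =>
    rw [Finset.sum_empty, LinearMap.zero_apply] at hf
    have h0 : μ ≠ 0 := by simpa using hμ 0
    rcases smul_eq_zero.1 hf.symm with h | h
    · exact absurd h h0
    · exact h
  | insert a s ha ih =>
    rw [Finset.sum_insert ha] at hf
    set D := ∑ i ∈ s, A i with hD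
    have hDf : D f = μ • f - A a f := by
      rw [← hf, LinearMap.add_apply]; abel
    have h3 : A a * A a * A a = A a := hA a (Finset.mem_insert_self _ _)
    have h3' : ∀ v, A a (A a (A a v)) = A a v := fun v => by
      have := LinearMap.congr_fun h3 v
      simpa using this
    have hcomm : ∀ v, D (A a v) = A a (D v) := by
      intro v
      rw [hD, LinearMap.sum_apply, LinearMap.sum_apply, map_sum]
      refine Finset.sum_congr rfl fun i hi => ?_
      have := LinearMap.congr_fun (hc i (Finset.mem_insert_of_mem hi) a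
        (Finset.mem_insert_self _ _) (fun h => ha (h ▸ hi))) v
      simpa using this
    have ih' : ∀ (ν : ℂ) (k : ℤ) (v : E), ν = μ + k → D v = ν • v → v = 0 := by
      intro ν k v hν hv
      refine ih (fun i hi => hA i (Finset.mem_insert_of_mem hi))
        (fun i hi j hj => hc i (Finset.mem_insert_of_mem hi) j (Finset.mem_insert_of_mem hj))
        ν ?_ v hv
      intro l hl
      apply hμ (l - k)
      push_cast
      rw [← hl, hν]
      ring
    have h1 : A a (A a f) + A a f = 0 := by
      refine ih' (μ - 1) (-1) _ (by push_cast; ring) ?_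
      rw [map_add, hcomm, hcomm, hDf]
      simp only [map_sub, map_smul, h3', smul_add, sub_smul, one_smul]
      abel
    have h2 : A a (A a f) - A a f = 0 := by
      refine ih' (μ + 1) 1 _ (by push_cast; ring) ?_
      rw [map_sub, hcomm, hcomm, hDf]
      simp only [map_sub, map_smul, h3', smul_sub, add_smul, one_smul]
      abel
    have h4 : f - A a (A a f) = 0 := by
      refine ih' μ 0 _ (by push_cast; ring) ?_
      rw [map_sub, hcomm, hcomm, hDf]
      simp only [map_sub, map_smul, h3', smul_sub]
      abel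
    have h5 : A a (A a f) + A a (A a f) = 0 := by
      have := congrArg₂ (· + ·) h1 h2
      simpa using this
    have h6 : A a (A a f) = 0 := by
      rw [← two_smul ℂ] at h5
      rcases smul_eq_zero.1 h5 with h | h
      · norm_num at h
      · exact h
    rw [h6, sub_zero] at h4
    exact h4

theorem half_sum (s : Finset ι) (A : ι → Module.End ℂ E) (B : Module.End ℂ E)
    (hA : ∀ i ∈ s, A i * A i * A i = A i)
    (hc : ∀ i ∈ s, ∀ j ∈ s, i ≠ j → A i * A j = A j * A i)
    (hb : ∀ i ∈ s, A i * B = B * A i) (f : E) (hB : (4 : ℂ) • B (B f) = f)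
    (hf : (∑ i ∈ s, A i) f + B f = 0) : f = 0 := by
  set D := ∑ i ∈ s, A i with hD
  have hcomm : ∀ v, D (B v) = B (D v) := by
    intro v
    rw [hD, LinearMap.sum_apply, LinearMap.sum_apply, map_sum]
    refine Finset.sum_congr rfl fun i hi => ?_
    have := LinearMap.congr_fun (hb i hi) v
    simpa using this
  have hDf : D f = -B f := eq_neg_of_add_eq_zero_left hf
  have hB' : B (B f) = (1 / 4 : ℂ) • f := by
    have h := congrArg (fun v => (1 / 4 : ℂ) • v) hB
    simp only [smul_smul] at h
    rw [← h]
    norm_num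
  have hnum : ∀ k : ℤ, (1 / 2 : ℂ) ≠ k := by
    intro k hk
    have h2 : (1 : ℂ) = ((2 * k : ℤ) : ℂ) := by
      push_cast
      rw [← hk]
      norm_num
    have h3 : (1 : ℤ) = 2 * k := by exact_mod_cast h2
    omega
  have hnum' : ∀ k : ℤ, (-(1 / 2) : ℂ) ≠ k := by
    intro k hk
    apply hnum (-k)
    push_cast
    rw [← hk]
    ring
  have h1 : (1 / 2 : ℂ) • f + B f = 0 := by
    refine int_sum s A hA hc (-(1 / 2)) hnum' _ ?_
    rw [← hD, map_add, map_smul, hcomm, hDf, map_neg, hB', smul_add, smul_neg, smul_smul, neg_smul,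
      ← neg_smul]
    norm_num
    abel
  have h2 : (1 / 2 : ℂ) • f - B f = 0 := by
    refine int_sum s A hA hc (1 / 2) hnum _ ?_
    rw [← hD, map_sub, map_smul, hcomm, hDf, map_neg, hB', smul_sub, smul_neg, smul_smul]
    norm_num
    abel
  have h3 := congrArg₂ (· + ·) h1 h2
  simp only [add_zero] at h3
  have h4 : (1 / 2 : ℂ) • f + B f + ((1 / 2 : ℂ) • f - B f) = f := by
    rw [show (1 / 2 : ℂ) • f + B f + ((1 / 2 : ℂ) • f - B f) =
      (1 / 2 : ℂ) • f + (1 / 2 : ℂ) • f by abel, ← add_smul]
    norm_num
  rw [← h4, h3]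

end ops

/-! ### Action on a variable -/

section sl
variable {ι : Type} [Fintype ι] {S : Type} [DecidableEq S]

/-- the action on a variable as a linear map -/
def slL (j : S) (z : Matrix ι ι ℂ) : Module.End ℂ ((S → ι) → ℂ) where
  toFun f := sl j z f
  map_add' f g := by
    funext J
    show ∑ p, z p (J j) * (f _ + g _) = (∑ p, z p (J j) * f _) + ∑ p, z p (J j) * g _
    rw [← Finset.sum_add_distrib]
    exact Finset.sum_congr rfl fun p _ => mul_add _ _ _
  map_smul' c f := by
    funext J
    show ∑ p, z p (J j) * (c * f _) = c * ∑ p, z p (J j) * f _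
    rw [Finset.mul_sum]
    exact Finset.sum_congr rfl fun p _ => by ring

theorem slL_apply (j : S) (z : Matrix ι ι ℂ) (f : (S → ι) → ℂ) : slL j z f = sl j z f := rfl

theorem sl_sl (j : S) (a b : Matrix ι ι ℂ) (f : (S → ι) → ℂ) :
    sl j a (sl j b f) = sl j (b * a) f := by
  funext J
  show ∑ p, a p (J j) * ∑ q, b q ((update J j p) j) * f (update (update J j p) j q) =
    ∑ q, (b * a) q (J j) * f (update J j q)
  simp only [update_self, update_idem, Finset.mul_sum]
  rw [Finset.sum_comm]
  refine Finset.sum_congr rfl fun q _ => ?_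
  rw [Matrix.mul_apply, Finset.sum_mul]
  exact Finset.sum_congr rfl fun p _ => by ring

theorem sl_comm {i j : S} (hij : i ≠ j) (a b : Matrix ι ι ℂ) (f : (S → ι) → ℂ) :
    sl i a (sl j b f) = sl j b (sl i a f) := by
  funext J
  show ∑ p, a p (J i) * ∑ q, b q ((update J i p) j) * f (update (update J i p) j q) =
    ∑ q, b q (J j) * ∑ p, a p ((update J j q) i) * f (update (update J j q) i p)
  simp only [update_of_ne hij, update_of_ne hij.symm, Finset.mul_sum]
  rw [Finset.sum_comm]
  refine Finset.sum_congr rfl fun q _ => Finset.sum_congr rfl fun p _ => ?_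
  rw [update_comm hij]
  ring

theorem slL_mul (j : S) (a b : Matrix ι ι ℂ) : slL j a * slL j b = slL j (b * a) := by
  ext1 f
  exact sl_sl j a b f

theorem slL_comm {i j : S} (hij : i ≠ j) (a b : Matrix ι ι ℂ) :
    slL i a * slL j b = slL j b * slL i a := by
  ext1 f
  exact sl_comm hij a b f

theorem sl_add (j : S) (a b : Matrix ι ι ℂ) (f : (S → ι) → ℂ) :
    sl j (a + b) f = sl j a f + sl j b f := by
  funext J
  show ∑ p, (a p (J j) + b p (J j)) * f _ = (∑ p, a p (J j) * f _) + ∑ p, b p (J j) * f _
  rw [← Finset.sum_add_distrib]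
  exact Finset.sum_congr rfl fun p _ => add_mul _ _ _

theorem sl_smul (j : S) (c : ℂ) (a : Matrix ι ι ℂ) (f : (S → ι) → ℂ) :
    sl j (c • a) f = c • sl j a f := by
  funext J
  show ∑ p, (c * a p (J j)) * f _ = c * ∑ p, a p (J j) * f _
  rw [Finset.mul_sum]
  exact Finset.sum_congr rfl fun p _ => mul_assoc _ _ _

variable [Fintype S]

theorem der_eq (z : Matrix ι ι ℂ) (f : (S → ι) → ℂ) : der z f = (∑ j, slL j z) f := by
  funext J
  rw [LinearMap.sum_apply, Finset.sum_apply]
  rfl

theorem der_add (a b : Matrix ι ι ℂ) (f : (S → ι) → ℂ) : der (a + b) f = der a f + der b f := by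
  rw [der_eq, der_eq, der_eq, LinearMap.sum_apply, LinearMap.sum_apply, LinearMap.sum_apply,
    ← Finset.sum_add_distrib]
  exact Finset.sum_congr rfl fun j _ => sl_add j a b f

theorem der_smul (c : ℂ) (a : Matrix ι ι ℂ) (f : (S → ι) → ℂ) : der (c • a) f = c • der a f := by
  rw [der_eq, der_eq, LinearMap.sum_apply, LinearMap.sum_apply, Finset.smul_sum]
  exact Finset.sum_congr rfl fun j _ => sl_smul j c a f

theorem der_lie (a b : Matrix ι ι ℂ) (f : (S → ι) → ℂ) :
    der (a * b - b * a) f = der b (der a f) - der a (der b f) := by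
  have h : (∑ j : S, slL j (a * b - b * a)) =
      (∑ j : S, slL (S := S) j b) * (∑ j : S, slL j a) - (∑ j : S, slL j a) * ∑ j : S, slL j b := by
    rw [Finset.sum_mul_sum, Finset.sum_mul_sum]
    rw [Finset.sum_comm (f := fun i j : S => slL i a * slL j b)]
    rw [← Finset.sum_sub_distrib]
    refine Finset.sum_congr rfl fun j _ => ?_
    rw [← Finset.sum_sub_distrib, Finset.sum_eq_single j]
    · rw [slL_mul, slL_mul]
      ext1 f
      show sl j (a * b - b * a) f = sl j (a * b) f - sl j (b * a) f
      have := sl_add j (a * b - b * a) (b * a) f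
      rw [sub_add_cancel] at this
      rw [this, add_sub_cancel_right]
    · intro i _ hi
      rw [slL_comm hi, sub_self]
    · intro h
      exact absurd (Finset.mem_univ j) h
  rw [der_eq, h, LinearMap.sub_apply, Module.End.mul_apply, Module.End.mul_apply, der_eq b, der_eq a,
    der_eq a, der_eq b]

theorem der_zero (a : Matrix ι ι ℂ) : der a (0 : (S → ι) → ℂ) = 0 := by
  rw [der_eq, map_zero]

end sl

/-! ### Forms on `V` -/

section V
variable {n w : ℕ} {S : Type} [Fintype S] [DecidableEq S]

theorem g0_der (V : HS n) (f : (S → Fin n) → ℂ) (h : ∀ σ : ℂ ≃+* ℂ, der (V.x.map σ) f = 0) :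
    ∀ z ∈ g0 V, der z f = 0 := by
  intro z hz
  let L : Submodule ℂ (Matrix (Fin n) (Fin n) ℂ) :=
    { carrier := {z | der z f = 0}
      zero_mem' := by
        have := der_smul (0 : ℂ) (0 : Matrix (Fin n) (Fin n) ℂ) f
        rw [zero_smul, zero_smul] at this
        exact this
      add_mem' := by
        intro a b ha hb
        show der (a + b) f = 0
        rw [der_add, show der a f = 0 from ha, show der b f = 0 from hb, add_zero]
      smul_mem' := by
        intro c a ha
        show der (c • a) f = 0
        rw [der_smul, show der a f = 0 from ha, smul_zero] }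
  refine hz L ?_ h
  intro a ha b hb
  show der (a * b - b * a) f = 0
  rw [der_lie, show der a f = 0 from ha, show der b f = 0 from hb, der_zero, der_zero, sub_zero]

/-- restriction to `V` -/
theorem der_inl (x : Matrix (Fin n) (Fin n) ℂ) (y : Matrix (Fin w) (Fin w) ℂ)
    (f : (S → Fin n ⊕ Fin w) → ℂ) (K : S → Fin n) :
    der (fromBlocks x 0 0 y) f (fun s => Sum.inl (K s)) =
      der x (fun K => f (fun s => Sum.inl (K s))) K := by
  unfold der sl
  refine Finset.sum_congr rfl fun j _ => ?_
  rw [Fintype.sum_sum_type]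
  simp only [fromBlocks_apply₁₁, fromBlocks_apply₂₁, Matrix.zero_apply, zero_mul,
    Finset.sum_const_zero, add_zero]
  refine Finset.sum_congr rfl fun p _ => ?_
  congr 1
  have h : update (fun s => (Sum.inl (K s) : Fin n ⊕ Fin w)) j (Sum.inl p) =
      fun s => Sum.inl (update K j p s) := by
    funext s
    by_cases hs : s = j
    · subst hs; simp
    · simp [update_of_ne hs]
  rw [h]

end V

/-! ### Patterns -/

section pat
variable {n w : ℕ} {S : Type} [Fintype S] [DecidableEq S]

/-- the form is zero unless the variables in the second summand are those with `pat s` -/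
def Pat {E : Type} [Zero E] {S : Type} (pat : S → Bool) (f : (S → Fin n ⊕ Fin w) → E) : Prop :=
  ∀ J, (fun s => (J s).isRight) ≠ pat → f J = 0

/-- the number of variables in the second summand -/
def cnt {S : Type} [Fintype S] (pat : S → Bool) : ℕ := ∑ s, (pat s).toNat

/-- the part of `f` with the pattern `pat` -/
def prt (pat : S → Bool) (f : (S → Fin n ⊕ Fin w) → ℂ) : (S → Fin n ⊕ Fin w) → ℂ :=
  fun J => if (fun s => (J s).isRight) = pat then f J else 0

theorem prt_pat (pat : S → Bool) (f : (S → Fin n ⊕ Fin w) → ℂ) : Pat pat (prt pat f) :=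
  fun _ h => if_neg h

theorem sum_prt (f : (S → Fin n ⊕ Fin w) → ℂ) : ∑ pat : S → Bool, prt pat f = f := by
  funext J
  rw [Finset.sum_apply]
  exact (Finset.sum_ite_eq Finset.univ (fun s => (J s).isRight) (fun _ => f J)).trans
    (if_pos (Finset.mem_univ _))

theorem blk_zero (x : Matrix (Fin n) (Fin n) ℂ) (y : Matrix (Fin w) (Fin w) ℂ)
    {p q : Fin n ⊕ Fin w} (h : p.isRight ≠ q.isRight) : fromBlocks x 0 0 y p q = 0 := by
  rcases p with p | p <;> rcases q with q | q
  · exact absurd rfl h
  · rfl
  · rfl
  · exact absurd rfl h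

theorem isRight_update (J : S → Fin n ⊕ Fin w) (j : S) (p : Fin n ⊕ Fin w)
    (h : p.isRight = (J j).isRight) :
    (fun s => (update J j p s).isRight) = fun s => (J s).isRight := by
  funext s
  by_cases hs : s = j
  · subst hs; simp [h]
  · rw [update_of_ne hs]

theorem der_prt (x : Matrix (Fin n) (Fin n) ℂ) (y : Matrix (Fin w) (Fin w) ℂ) (pat : S → Bool)
    (f : (S → Fin n ⊕ Fin w) → ℂ) :
    der (fromBlocks x 0 0 y) (prt pat f) = prt pat (der (fromBlocks x 0 0 y) f) := by
  funext J
  have h : ∀ j p, fromBlocks x 0 0 y p (J j) * prt pat f (update J j p) =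
      if (fun s => (J s).isRight) = pat then fromBlocks x 0 0 y p (J j) * f (update J j p)
      else 0 := by
    intro j p
    by_cases hp : p.isRight = (J j).isRight
    · unfold prt
      rw [isRight_update J j p hp, mul_ite, mul_zero]
    · rw [blk_zero x y hp, zero_mul, zero_mul, ite_self]
  show ∑ j, ∑ p, fromBlocks x 0 0 y p (J j) * prt pat f (update J j p) =
    if (fun s => (J s).isRight) = pat then
      ∑ j, ∑ p, fromBlocks x 0 0 y p (J j) * f (update J j p) else 0
  simp only [h]
  split_ifs
  · rfl
  · simp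

/-- no invariants with one variable in `W` -/
theorem one_W (V : HS n) (W : HW w) (pat : S → Bool) (hp : cnt pat = 1)
    (f : (S → Fin n ⊕ Fin w) → ℂ) (hf : Pat pat f)
    (h : der (fromBlocks V.x 0 0 W.y) f = 0) : f = 0 := by
  obtain ⟨t, ht, ht'⟩ : ∃ t, pat t = true ∧ ∀ s, s ≠ t → pat s = false := by
    have h1 : ∃ t, pat t = true := by
      by_contra hno
      push Not at hno
      have : cnt pat = 0 := by
        unfold cnt
        refine Finset.sum_eq_zero fun s _ => ?_
        rw [Bool.eq_false_iff.2 (hno s)]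
        rfl
      omega
    obtain ⟨t, ht⟩ := h1
    refine ⟨t, ht, fun s hs => ?_⟩
    by_contra hs'
    rw [Bool.not_eq_false] at hs'
    have h2 : (pat s).toNat + (pat t).toNat ≤ cnt pat := by
      unfold cnt
      have := Finset.sum_le_sum_of_subset (f := fun s => (pat s).toNat)
        (Finset.subset_univ ({s, t} : Finset S))
      rwa [Finset.sum_pair hs] at this
    rw [hs', ht, hp] at h2
    simp at h2
  set X := fromBlocks V.x 0 0 W.y with hX
  set a : Matrix (Fin n ⊕ Fin w) (Fin n ⊕ Fin w) ℂ := fromBlocks V.x 0 0 0 with ha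
  set b : Matrix (Fin n ⊕ Fin w) (Fin n ⊕ Fin w) ℂ := fromBlocks 0 0 0 W.y with hb
  have ha3 : a * (a * a) = a := by
    rw [ha, fromBlocks_multiply, fromBlocks_multiply]
    simp only [Matrix.mul_zero, Matrix.zero_mul, add_zero]
    rw [← Matrix.mul_assoc, V.cube]
  -- the action on a variable of the first type
  have h1 : ∀ j, j ≠ t → slL j X f = slL j a f := by
    intro j hj
    rw [slL_apply, slL_apply]
    funext J
    show ∑ p, X p (J j) * f (update J j p) = ∑ p, a p (J j) * f (update J j p)
    refine Finset.sum_congr rfl fun p _ => ?_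
    rcases p with p | p
    · rcases hJ : J j with q | q <;> rfl
    · rw [hf, mul_zero, mul_zero]
      intro hh
      have := congrFun hh j
      simp only [update_self] at this
      rw [ht' j hj] at this
      simp at this
  have h2 : slL t X f = slL t b f := by
    rw [slL_apply, slL_apply]
    funext J
    show ∑ p, X p (J t) * f (update J t p) = ∑ p, b p (J t) * f (update J t p)
    refine Finset.sum_congr rfl fun p _ => ?_
    rcases p with p | p
    · rw [hf, mul_zero, mul_zero]
      intro hh
      have := congrFun hh t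
      simp only [update_self] at this
      rw [ht] at this
      simp at this
    · rcases hJ : J t with q | q <;> rfl
  refine half_sum (Finset.univ.erase t) (fun j => slL j a) (slL t b) ?_ ?_ ?_ f ?_ ?_
  · intro i _
    show slL i a * slL i a * slL i a = slL i a
    rw [slL_mul, slL_mul, ha3]
  · intro i _ j _ hij
    exact slL_comm hij a a
  · intro i hi
    exact slL_comm (Finset.ne_of_mem_erase hi) a b
  · rw [slL_apply, slL_apply, sl_sl]
    have hbb : (4 : ℂ) • (b * b) = fromBlocks 0 0 0 1 := by
      rw [hb, fromBlocks_multiply, fromBlocks_smul]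
      simp only [Matrix.mul_zero, Matrix.zero_mul, add_zero, smul_zero, zero_add]
      rw [W.sq]
    rw [← sl_smul, hbb]
    funext J
    show ∑ p, (fromBlocks 0 0 0 1 : Matrix (Fin n ⊕ Fin w) (Fin n ⊕ Fin w) ℂ) p (J t) *
      f (update J t p) = f J
    rcases hJ : J t with q | q
    · rw [hf J]
      · refine Finset.sum_eq_zero fun p _ => ?_
        rcases p with p | p
        · show 0 * _ = _
          rw [zero_mul]
        · show 0 * _ = _
          rw [zero_mul]
      · intro hh
        have := congrFun hh t
        simp only [hJ, ht] at this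
        simp at this
    · rw [Fintype.sum_sum_type]
      simp only [fromBlocks_apply₁₂, fromBlocks_apply₂₂, Matrix.zero_apply, zero_mul,
        Finset.sum_const_zero, zero_add, Matrix.one_apply, ite_mul, one_mul]
      rw [Finset.sum_ite_eq' Finset.univ q]
      simp only [Finset.mem_univ, if_true]
      rw [← hJ, update_eq_self]
  · have h3 : der X f = (∑ j ∈ Finset.univ.erase t, slL j X) f + slL t X f := by
      rw [der_eq, ← Finset.sum_erase_add _ _ (Finset.mem_univ t), LinearMap.add_apply]
    rw [h, h2] at h3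
    rw [LinearMap.sum_apply] at h3 ⊢
    rw [← Finset.sum_congr rfl fun j hj => h1 j (Finset.ne_of_mem_erase hj)]
    exact h3.symm

end pat

end

end Pool.Agent.Y175.KS.Mix
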