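import Pool.Agent.Y175.KS.MixA
import Pool.Agent.Y89.KS.Tot

/-!
# Mixed forms: forms with values in `End W`
-/

open Matrix Finset Function

set_option linter.unusedSectionVars false

namespace Pool.Agent.Y175.KS.Mix

noncomputable section

open Pool.Agent.W544.PG (HS HW mC cspan cx)
open Pool.Agent.Y89.KS

/-- the indices of `V ⊕ W` -/
abbrev II (n w : ℕ) : Type := Fin n ⊕ Fin w

/-- endomorphisms of `W` -/
abbrev Mw (w : ℕ) : Type := Matrix (Fin w) (Fin w) ℂ

section mat
variable {n w : ℕ} {S S' : Type}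

/-- the form with values in `End W` as a scalar form -/
def exM (E : Mw w) (F : (S → II n w) → Mw w) : (S ⊕ Bool → II n w) → ℂ := fun J =>
  (fromBlocks 0 0 0 (E * F (fun s => J (Sum.inl s))) : Matrix (II n w) (II n w) ℂ)
    (J (Sum.inr false)) (J (Sum.inr true))

theorem exM_rr (E : Mw w) (F : (S → II n w) → Mw w) (K : S → II n w) (a b : Fin w) :
    exM E F (Sum.elim K fun i => Sum.inr (cond i b a)) = (E * F K) a b := rfl

theorem exM_add (E : Mw w) (F G : (S → II n w) → Mw w) : exM E (F + G) = exM E F + exM E G := by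
  funext J
  show (fromBlocks 0 0 0 (E * (F _ + G _)) : Matrix (II n w) (II n w) ℂ) _ _ =
    (fromBlocks 0 0 0 (E * F _) : Matrix (II n w) (II n w) ℂ) _ _ +
      (fromBlocks 0 0 0 (E * G _) : Matrix (II n w) (II n w) ℂ) _ _
  rw [← Matrix.add_apply, fromBlocks_add, Matrix.mul_add]
  simp only [add_zero]

theorem exM_smul (E : Mw w) (c : ℂ) (F : (S → II n w) → Mw w) : exM E (c • F) = c • exM E F := by
  funext J
  show (fromBlocks 0 0 0 (E * (c • F _)) : Matrix (II n w) (II n w) ℂ) _ _ =
    c • (fromBlocks 0 0 0 (E * F _) : Matrix (II n w) (II n w) ℂ) _ _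
  rw [← Matrix.smul_apply, fromBlocks_smul, Matrix.mul_smul]
  simp only [smul_zero]

/-- `exM` as a linear map -/
def exL (S : Type) (E : Mw w) :
    ((S → II n w) → Mw w) →ₗ[ℂ] ((S ⊕ Bool → II n w) → ℂ) where
  toFun := exM E
  map_add' := exM_add E
  map_smul' := exM_smul E

/-- the forms with values in `End W` in the system -/
def ME (M : ∀ S : Type, Submodule ℂ ((S → II n w) → ℂ)) (E : Mw w) (S : Type) :
    Submodule ℂ ((S → II n w) → Mw w) := (M (S ⊕ Bool)).comap (exL S E)

variable {M : ∀ S : Type, Submodule ℂ ((S → II n w) → ℂ)} {E : Mw w}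

theorem mem_ME {F : (S → II n w) → Mw w} : F ∈ ME M E S ↔ exM E F ∈ M (S ⊕ Bool) := Iff.rfl

theorem me_mul {R : Matrix (Fin n) (Fin n) ℂ} (hM : GSys (fromBlocks R 0 0 E⁻¹) M)
    (hE : E⁻¹ * E = 1) {F : (S → II n w) → Mw w} {G : (S' → II n w) → Mw w}
    (hF : F ∈ ME M E S) (hG : G ∈ ME M E S') :
    (fun J : S ⊕ S' → II n w => F (fun s => J (Sum.inl s)) * G (fun s => J (Sum.inr s))) ∈
      ME M E (S ⊕ S') := by
  have h := hM.con _ _ (hM.reidx _ _ (eMul S S') _ (hM.mul _ _ _ _ hF hG))
  have h2 : exM E (fun J : S ⊕ S' → II n w =>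
      F (fun s => J (Sum.inl s)) * G (fun s => J (Sum.inr s))) = fun J =>
        ∑ p, ∑ q, (fromBlocks R 0 0 E⁻¹ : Matrix (II n w) (II n w) ℂ) p q *
          ((fromBlocks 0 0 0 (E * F (fun s => J (Sum.inl (Sum.inl s)))) :
              Matrix (II n w) (II n w) ℂ) (J (Sum.inr false)) p *
            (fromBlocks 0 0 0 (E * G (fun s => J (Sum.inl (Sum.inr s)))) :
              Matrix (II n w) (II n w) ℂ) q (J (Sum.inr true))) := by
    funext J
    set K1 : S → II n w := fun s => J (Sum.inl (Sum.inl s)) with hK1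
    set K2 : S' → II n w := fun s => J (Sum.inl (Sum.inr s)) with hK2
    have h4 : (fromBlocks 0 0 0 (E * (F K1 * G K2)) : Matrix (II n w) (II n w) ℂ) =
        (fromBlocks 0 0 0 (E * F K1) : Matrix (II n w) (II n w) ℂ) * fromBlocks R 0 0 E⁻¹ *
          (fromBlocks 0 0 0 (E * G K2) : Matrix (II n w) (II n w) ℂ) := by
      rw [fromBlocks_multiply, fromBlocks_multiply]
      simp only [Matrix.mul_zero, Matrix.zero_mul, add_zero, zero_add]
      congr 1
      rw [Matrix.mul_assoc (E * F K1), ← Matrix.mul_assoc E⁻¹, hE, Matrix.one_mul,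
        Matrix.mul_assoc]
    show (fromBlocks 0 0 0 (E * (F K1 * G K2)) : Matrix (II n w) (II n w) ℂ)
      (J (Sum.inr false)) (J (Sum.inr true)) = _
    rw [h4, Matrix.mul_apply, Finset.sum_comm]
    refine Finset.sum_congr rfl fun q _ => ?_
    rw [Matrix.mul_apply, Finset.sum_mul]
    exact Finset.sum_congr rfl fun p _ => by ring
  rw [mem_ME, h2]
  exact h

theorem me_smul {R : Matrix (II n w) (II n w) ℂ} (hM : GSys R M)
    {f : (S → II n w) → ℂ} {G : (S' → II n w) → Mw w}
    (hf : f ∈ M S) (hG : G ∈ ME M E S') :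
    (fun J : S ⊕ S' → II n w => f (fun s => J (Sum.inl s)) • G (fun s => J (Sum.inr s))) ∈
      ME M E (S ⊕ S') := by
  have h := hM.reidx _ _ (Equiv.sumAssoc S S' Bool).symm _ (hM.mul _ _ _ _ hf hG)
  rw [mem_ME]
  have h2 : exM E (fun J : S ⊕ S' → II n w =>
      f (fun s => J (Sum.inl s)) • G (fun s => J (Sum.inr s))) = fun J =>
      f (fun s => J (Sum.inl (Sum.inl s))) * exM E G
        (fun s => J ((Equiv.sumAssoc S S' Bool).symm (Sum.inr s))) := by
    funext J
    show (fromBlocks 0 0 0 (E * (f _ • G _)) : Matrix (II n w) (II n w) ℂ) _ _ =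
      f _ • (fromBlocks 0 0 0 (E * G _) : Matrix (II n w) (II n w) ℂ) _ _
    rw [← Matrix.smul_apply, fromBlocks_smul, Matrix.mul_smul]
    simp only [smul_zero]
    rfl
  rw [h2]
  exact h

theorem me_reidx {R : Matrix (II n w) (II n w) ℂ} (hM : GSys R M) (e : S ≃ S')
    {F : (S → II n w) → Mw w} (hF : F ∈ ME M E S) :
    (fun J : S' → II n w => F (fun s => J (e s))) ∈ ME M E S' := by
  have h := hM.reidx _ _ (Equiv.sumCongr e (Equiv.refl Bool)) _ hF
  rw [mem_ME]
  exact h

theorem me_con {R : Matrix (II n w) (II n w) ℂ} (hM : GSys R M)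
    {F : (S ⊕ Bool → II n w) → Mw w} (hF : F ∈ ME M E (S ⊕ Bool)) :
    (fun J : S → II n w => ∑ p, ∑ q, R p q • F (Sum.elim J fun b => cond b q p)) ∈ ME M E S := by
  have h := hM.con _ _ (hM.reidx _ _ (eCon S) _ hF)
  rw [mem_ME]
  have h2 : exM E (fun J : S → II n w => ∑ p, ∑ q, R p q • F (Sum.elim J fun b => cond b q p)) =
      fun J => ∑ p, ∑ q, R p q * (fromBlocks 0 0 0
        (E * F (Sum.elim (fun s => J (Sum.inl s)) fun b => cond b q p)) :
          Matrix (II n w) (II n w) ℂ) (J (Sum.inr false)) (J (Sum.inr true)) := by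
    funext J
    show (fromBlocks 0 0 0 (E * ∑ p, ∑ q, R p q • F (Sum.elim (fun s => J (Sum.inl s))
      fun b => cond b q p)) : Matrix (II n w) (II n w) ℂ) _ _ = _
    rcases J (Sum.inr false) with a | a <;> rcases J (Sum.inr true) with b | b
    · simp
    · simp
    · simp
    · simp only [fromBlocks_apply₂₂]
      simp only [Matrix.mul_sum, Matrix.mul_smul, Matrix.sum_apply, Matrix.smul_apply, smul_eq_mul]
  rw [h2]
  have h3 : (fun J : S ⊕ Bool → II n w => ∑ p, ∑ q, R p q * (fromBlocks 0 0 0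
      (E * F (Sum.elim (fun s => J (Sum.inl s)) fun b => cond b q p)) :
        Matrix (II n w) (II n w) ℂ) (J (Sum.inr false)) (J (Sum.inr true))) =
      fun J => ∑ p, ∑ q, R p q * exM E F (fun s => (Sum.elim J fun b => cond b q p :
        (S ⊕ Bool) ⊕ Bool → II n w) (eCon S s)) := by
    funext J
    refine Finset.sum_congr rfl fun p _ => Finset.sum_congr rfl fun q _ => ?_
    congr 1
    show _ = (fromBlocks 0 0 0 (E * F (fun s => (Sum.elim J fun b => cond b q p :
        (S ⊕ Bool) ⊕ Bool → II n w) (eCon S (Sum.inl s)))) : Matrix (II n w) (II n w) ℂ) _ _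
    have h4 : (fun s => (Sum.elim J fun b => cond b q p :
        (S ⊕ Bool) ⊕ Bool → II n w) (eCon S (Sum.inl s))) =
        Sum.elim (fun s => J (Sum.inl s)) fun b => cond b q p := by
      funext s
      rcases s with s | s
      · rfl
      · cases s <;> rfl
    rw [h4]
    rfl
  rw [h3]
  exact h

/-! ### The derivations -/

variable [Fintype S] [DecidableEq S] [Fintype S'] [DecidableEq S']

/-- the derivation on the forms with values in `End W` -/
def dM (X : Matrix (II n w) (II n w) ℂ) (F : (S → II n w) → Mw w) : (S → II n w) → Mw w :=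
  fun J => ∑ j, ∑ p, X p (J j) • F (update J j p)

/-- invariance -/
def Kd (X : Matrix (II n w) (II n w) ℂ) (y : Mw w) (F : (S → II n w) → Mw w) : Prop :=
  ∀ J, dM X F J = y * F J - F J * y

theorem upd_inl (J : S ⊕ S' → II n w) (s : S) (p : II n w) :
    (fun t => update J (Sum.inl s) p (Sum.inl t)) = update (fun t => J (Sum.inl t)) s p := by
  funext t
  by_cases h : t = s
  · subst h; simp
  · rw [update_of_ne h, update_of_ne]
    intro h'
    exact h (Sum.inl.inj h')

theorem upd_inr (J : S ⊕ S' → II n w) (s : S') (p : II n w) :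
    (fun t => update J (Sum.inr s) p (Sum.inr t)) = update (fun t => J (Sum.inr t)) s p := by
  funext t
  by_cases h : t = s
  · subst h; simp
  · rw [update_of_ne h, update_of_ne]
    intro h'
    exact h (Sum.inr.inj h')

theorem upd_inl' (J : S ⊕ S' → II n w) (s : S) (p : II n w) (t : S') :
    update J (Sum.inl s) p (Sum.inr t) = J (Sum.inr t) := update_of_ne Sum.inr_ne_inl _ _

theorem upd_inr' (J : S ⊕ S' → II n w) (s : S') (p : II n w) :
    (fun t => update J (Sum.inr s) p (Sum.inl t)) = fun t => J (Sum.inl t) := by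
  funext t
  exact update_of_ne Sum.inl_ne_inr _ _

theorem der_lin (X : Matrix (II n w) (II n w) ℂ) (T : Mw w →ₗ[ℂ] ℂ) (F : (S → II n w) → Mw w)
    (J : S → II n w) : der X (fun J => T (F J)) J = T (dM X F J) := by
  show ∑ j, ∑ p, X p (J j) * T (F (update J j p)) = T (∑ j, ∑ p, X p (J j) • F (update J j p))
  simp only [map_sum, map_smul, smul_eq_mul]

theorem dM_lin (X : Matrix (II n w) (II n w) ℂ) (T : Mw w →ₗ[ℂ] Mw w) (F : (S → II n w) → Mw w)
    (J : S → II n w) : dM X (fun J => T (F J)) J = T (dM X F J) := by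
  show ∑ j, ∑ p, X p (J j) • T (F (update J j p)) = T (∑ j, ∑ p, X p (J j) • F (update J j p))
  simp only [map_sum, map_smul]

/-- the scalar form of an invariant form -/
theorem der_exM (x : Matrix (Fin n) (Fin n) ℂ) (y : Mw w) (hy : yᵀ * E + E * y = 0)
    (F : (S → II n w) → Mw w) (J : S ⊕ Bool → II n w) :
    der (fromBlocks x 0 0 y) (exM E F) J =
      exM E (fun J => dM (fromBlocks x 0 0 y) F J - (y * F J - F J * y)) J := by
  set X : Matrix (II n w) (II n w) ℂ := fromBlocks x 0 0 y with hX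
  set K : S → II n w := fun s => J (Sum.inl s) with hK
  set B : Matrix (II n w) (II n w) ℂ := fromBlocks 0 0 0 (E * F K) with hB
  have h1 : der X (exM E F) J = (fromBlocks 0 0 0 (E * dM X F K) : Matrix (II n w) (II n w) ℂ)
      (J (Sum.inr false)) (J (Sum.inr true)) + (∑ p, X p (J (Sum.inr true)) *
        B (J (Sum.inr false)) p + ∑ p, X p (J (Sum.inr false)) * B p (J (Sum.inr true))) := by
    show ∑ j, ∑ p, X p (J j) * exM E F (update J j p) = _
    rw [Fintype.sum_sum_type, Fintype.sum_bool]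
    congr 1
    · rw [show E * dM X F K = ∑ j, ∑ p, X p (K j) • (E * F (update K j p)) by
        unfold dM
        simp only [Matrix.mul_sum, Matrix.mul_smul]]
      have h2 : ∀ s p, exM E F (update J (Sum.inl s) p) =
          (fromBlocks 0 0 0 (E * F (update K s p)) : Matrix (II n w) (II n w) ℂ)
            (J (Sum.inr false)) (J (Sum.inr true)) := by
        intro s p
        unfold exM
        rw [upd_inl, upd_inl', upd_inl']
      simp only [h2]
      rcases J (Sum.inr false) with a | a <;> rcases J (Sum.inr true) with b | b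
      · simp
      · simp
      · simp
      · simp only [fromBlocks_apply₂₂, Matrix.sum_apply, Matrix.smul_apply, smul_eq_mul]
        rfl
  have h2 : ∑ p, X p (J (Sum.inr true)) * B (J (Sum.inr false)) p =
      (B * X) (J (Sum.inr false)) (J (Sum.inr true)) := by
    rw [Matrix.mul_apply]
    exact Finset.sum_congr rfl fun p _ => mul_comm _ _
  have h3 : ∑ p, X p (J (Sum.inr false)) * B p (J (Sum.inr true)) =
      (Xᵀ * B) (J (Sum.inr false)) (J (Sum.inr true)) := by
    rw [Matrix.mul_apply]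
    rfl
  have hy' : yᵀ * E = -(E * y) := eq_neg_of_add_eq_zero_left hy
  have h4 : B * X + Xᵀ * B = fromBlocks 0 0 0 (E * (F K * y - y * F K)) := by
    rw [hB, hX, fromBlocks_transpose, fromBlocks_multiply, fromBlocks_multiply, fromBlocks_add]
    simp only [Matrix.mul_zero, Matrix.zero_mul, add_zero, zero_add, Matrix.transpose_zero]
    congr 1
    rw [← Matrix.mul_assoc, hy', Matrix.mul_sub, Matrix.neg_mul, Matrix.mul_assoc,
      Matrix.mul_assoc, sub_eq_add_neg]
  rw [h1, h2, h3, ← Matrix.add_apply, h4, ← Matrix.add_apply, fromBlocks_add]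
  simp only [add_zero]
  show _ = (fromBlocks 0 0 0 (E * (dM X F K - (y * F K - F K * y))) :
    Matrix (II n w) (II n w) ℂ) _ _
  rw [← Matrix.mul_add]
  congr 3
  abel_nf

theorem kd_of_der (x : Matrix (Fin n) (Fin n) ℂ) (y : Mw w) (hy : yᵀ * E + E * y = 0)
    (hE : E⁻¹ * E = 1) (F : (S → II n w) → Mw w)
    (h : der (fromBlocks x 0 0 y) (exM E F) = 0) : Kd (fromBlocks x 0 0 y) y F := by
  intro K
  have h1 : E * (dM (fromBlocks x 0 0 y) F K - (y * F K - F K * y)) = 0 := by
    ext a b
    have h2 := congrFun h (Sum.elim K fun i => Sum.inr (cond i b a))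
    rw [der_exM x y hy] at h2
    exact h2
  have h2 := congrArg (fun A => E⁻¹ * A) h1
  simp only [← Matrix.mul_assoc, hE, Matrix.one_mul, Matrix.mul_zero] at h2
  exact sub_eq_zero.1 h2

/-- one more variable in `V` -/
theorem kd_theta {X : Matrix (II n w) (II n w) ℂ} {y : Mw w} {γ : II n w → Mw w}
    (hγ : ∀ v, y * γ v - γ v * y = ∑ p, X p v • γ p) {F : (S → II n w) → Mw w} (hF : Kd X y F) :
    Kd X y (fun J : S ⊕ Fin 1 → II n w => F (fun s => J (Sum.inl s)) * γ (J (Sum.inr 0))) := by
  intro J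
  set K : S → II n w := fun s => J (Sum.inl s) with hK
  have h1 : dM X (fun J : S ⊕ Fin 1 → II n w => F (fun s => J (Sum.inl s)) * γ (J (Sum.inr 0))) J =
      dM X F K * γ (J (Sum.inr 0)) + F K * ∑ p, X p (J (Sum.inr 0)) • γ p := by
    unfold dM
    rw [Fintype.sum_sum_type]
    congr 1
    · simp only [Matrix.sum_mul, Matrix.smul_mul]
      refine Finset.sum_congr rfl fun s _ => Finset.sum_congr rfl fun p _ => ?_
      show X p (J (Sum.inl s)) • (F (fun t => update J (Sum.inl s) p (Sum.inl t)) *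
        γ (update J (Sum.inl s) p (Sum.inr 0))) = _
      rw [upd_inl, upd_inl']
    · rw [Fin.sum_univ_one, Matrix.mul_sum]
      refine Finset.sum_congr rfl fun p _ => ?_
      show X p (J (Sum.inr 0)) • (F (fun t => update J (Sum.inr 0) p (Sum.inl t)) *
        γ (update J (Sum.inr 0) p (Sum.inr 0))) = _
      rw [upd_inr', update_self, Matrix.mul_smul]
  rw [h1, hF K, ← hγ]
  show _ = y * (F K * γ (J (Sum.inr 0))) - F K * γ (J (Sum.inr 0)) * y
  rw [Matrix.sub_mul, Matrix.mul_sub]
  simp only [Matrix.mul_assoc]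
  abel

theorem kd_lin {X : Matrix (II n w) (II n w) ℂ} {y : Mw w} (T : Mw w →ₗ[ℂ] Mw w)
    (hT : ∀ f, T (y * f - f * y) = y * T f - T f * y) {F : (S → II n w) → Mw w} (hF : Kd X y F) :
    Kd X y (fun J => T (F J)) := by
  intro J
  rw [dM_lin, hF J, hT]

theorem kd_tr {X : Matrix (II n w) (II n w) ℂ} {y d : Mw w} (hd : d * y = y * d)
    {F : (S → II n w) → Mw w} (hF : Kd X y F) : der X (fun J => (F J * d).trace) = 0 := by
  funext J
  have h := der_lin X ((Matrix.traceLinearMap (Fin w) ℂ ℂ) ∘ₗ (LinearMap.mulRight ℂ d)) F J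
  have h1 : (fun J => ((Matrix.traceLinearMap (Fin w) ℂ ℂ) ∘ₗ (LinearMap.mulRight ℂ d)) (F J)) =
      fun J => (F J * d).trace := rfl
  rw [h1] at h
  rw [h, hF J]
  show ((y * F J - F J * y) * d).trace = 0
  rw [Matrix.sub_mul, Matrix.trace_sub, Matrix.mul_assoc, Matrix.trace_mul_comm, Matrix.mul_assoc,
    Matrix.mul_assoc, hd, sub_self]

end mat

end

end Pool.Agent.Y175.KS.Mix
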